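import Pool.Agent.QNM.Vec

/-!
# Arithmetic in `F_p[X] / (f)`

Vectors of length `r` (`QNM/Vec.lean`); `F` is the vector of the numbers `- f_k`, so that
`X ^ r = ∑ F_k X ^ k`.
-/

set_option autoImplicit false

namespace Pool.Agent.RNM

open Pool.Agent.PRT Pool.Agent.QNM Finset

/-- `X * w` -/
def mulX (p W r F w : ℕ) : ℕ :=
  mk W r (fun k => mmod 1 ((if k = 0 then 0 else gt W w (k - 1)) + gt W w (r - 1) * gt W F k) p)

/-- `v * w`, Horner's scheme, `k` steps -/
def mulK (p W r F v w k : ℕ) : ℕ :=
  Nat.rec (motive := fun _ => ℕ) 0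
    (fun i acc => mk W r (fun k => mmod 1 (gt W (mulX p W r F acc) k +
      gt W v (r - 1 - i) * gt W w k) p)) k

/-- `v * w` -/
def mulR (p W r F v w : ℕ) : ℕ := mulK p W r F v w r

/-- `w (T)`, Horner's scheme, `k` steps -/
def compK (p W r F w T k : ℕ) : ℕ :=
  Nat.rec (motive := fun _ => ℕ) 0
    (fun i acc => mk W r (fun k => mmod 1 (gt W (mulR p W r F acc T) k +
      (if k = 0 then gt W w (r - 1 - i) else 0)) p)) k

/-- `w (T)` -/
def comp (p W r F w T : ℕ) : ℕ := compK p W r F w T r

/-- the vector `1` -/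
def oneR (W r : ℕ) : ℕ := mk W r (fun k => if k = 0 then 1 else 0)

/-- the vector `X` -/
def XR (W r : ℕ) : ℕ := mk W r (fun k => if k = 1 then 1 else 0)

/-- `v ^ k`, `k` small -/
def powR (p W r F v k : ℕ) : ℕ :=
  Nat.rec (motive := fun _ => ℕ) (oneR W r) (fun _ s => mulR p W r F s v) k

/-- `v ^ e`, `e` large, the binary digits of `e` (the first one is the most significant) -/
def powB (p W r F v : ℕ) (l : List Bool) : ℕ :=
  l.foldl (fun s b => mulR p W r F (mulR p W r F s s) (if b = true then v else oneR W r))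
    (oneR W r)

section

variable {p W r : ℕ}

theorem ev'_mulX (hp : 0 < p) (hW : p ≤ W) (hr : 0 < r) {F : ℕ} {x : ZMod p}
    (hx : x ^ r = ev' p W r x F) (w : ℕ) :
    ev' p W r x (mulX p W r F w) = x * ev' p W r x w := by
  unfold mulX
  rw [ev'_mk hp hW x (fun _ => mmod_lt hp)]
  obtain ⟨m, rfl⟩ : ∃ m, r = m + 1 := ⟨r - 1, by omega⟩
  rw [Nat.add_sub_cancel]
  have h1 : ∀ k ∈ range (m + 1), ((mmod 1 ((if k = 0 then 0 else gt W w (k - 1)) +
      gt W w m * gt W F k) p : ℕ) : ZMod p) * x ^ k =
      (if k = 0 then 0 else ((gt W w (k - 1) : ℕ) : ZMod p) * x ^ k) +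
        ((gt W w m : ℕ) : ZMod p) * (((gt W F k : ℕ) : ZMod p) * x ^ k) := by
    intro k _
    rw [mmod_cast _ _ hp.ne']
    split_ifs
    · push_cast
      ring
    · push_cast
      ring
  rw [Finset.sum_congr rfl h1, Finset.sum_add_distrib, ← Finset.mul_sum,
    Finset.sum_range_succ' _ m]
  simp only [Nat.succ_ne_zero, if_false, if_true, add_zero, Nat.add_sub_cancel]
  have h2 : ∑ k ∈ range (m + 1), ((gt W F k : ℕ) : ZMod p) * x ^ k = x ^ (m + 1) := by
    rw [hx]
    rfl
  rw [h2]
  unfold ev'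
  rw [Finset.sum_range_succ, mul_add, Finset.mul_sum]
  congr 1
  · refine Finset.sum_congr rfl fun k _ => ?_
    ring
  · ring

theorem ev'_mulK (hp : 0 < p) (hW : p ≤ W) (hr : 0 < r) {F : ℕ} {x : ZMod p}
    (hx : x ^ r = ev' p W r x F) (v w k : ℕ) :
    ev' p W r x (mulK p W r F v w k) =
      (∑ t ∈ range k, ((gt W v (r - 1 - t) : ℕ) : ZMod p) * x ^ (k - 1 - t)) * ev' p W r x w := by
  induction k with
  | zero => simp [mulK, ev', gt]
  | succ k ih =>
    have h0 : mulK p W r F v w (k + 1) = mk W r (fun j => mmod 1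
      (gt W (mulX p W r F (mulK p W r F v w k)) j + gt W v (r - 1 - k) * gt W w j) p) := rfl
    rw [h0, ev'_mk hp hW x (fun _ => mmod_lt hp)]
    have h1 : ∀ j ∈ range r, ((mmod 1 (gt W (mulX p W r F (mulK p W r F v w k)) j +
        gt W v (r - 1 - k) * gt W w j) p : ℕ) : ZMod p) * x ^ j =
        ((gt W (mulX p W r F (mulK p W r F v w k)) j : ℕ) : ZMod p) * x ^ j +
          ((gt W v (r - 1 - k) : ℕ) : ZMod p) * (((gt W w j : ℕ) : ZMod p) * x ^ j) := by
      intro j _
      rw [mmod_cast _ _ hp.ne']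
      push_cast
      ring
    rw [Finset.sum_congr rfl h1, Finset.sum_add_distrib, ← Finset.mul_sum]
    change ev' p W r x (mulX p W r F (mulK p W r F v w k)) +
      ((gt W v (r - 1 - k) : ℕ) : ZMod p) * ev' p W r x w = _
    rw [ev'_mulX hp hW hr hx, ih, Finset.sum_range_succ, add_mul]
    congr 1
    · rw [← mul_assoc, Finset.mul_sum]
      congr 1
      refine Finset.sum_congr rfl fun t ht => ?_
      have ht' := Finset.mem_range.1 ht
      have h2 : k + 1 - 1 - t = (k - 1 - t) + 1 := by omega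
      rw [h2, pow_succ]
      ring
    · have h2 : k + 1 - 1 - k = 0 := by omega
      rw [h2, pow_zero, mul_one]

theorem ev'_mulR (hp : 0 < p) (hW : p ≤ W) (hr : 0 < r) {F : ℕ} {x : ZMod p}
    (hx : x ^ r = ev' p W r x F) (v w : ℕ) :
    ev' p W r x (mulR p W r F v w) = ev' p W r x v * ev' p W r x w := by
  unfold mulR
  rw [ev'_mulK hp hW hr hx]
  congr 1
  exact Finset.sum_range_reflect (fun k => ((gt W v k : ℕ) : ZMod p) * x ^ k) r

theorem ev'_compK (hp : 0 < p) (hW : p ≤ W) (hr : 0 < r) {F T : ℕ} {x y : ZMod p}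
    (hx : x ^ r = ev' p W r x F) (hy : y = ev' p W r x T) (w k : ℕ) :
    ev' p W r x (compK p W r F w T k) =
      ∑ t ∈ range k, ((gt W w (r - 1 - t) : ℕ) : ZMod p) * y ^ (k - 1 - t) := by
  induction k with
  | zero => simp [compK, ev', gt]
  | succ k ih =>
    have h0 : compK p W r F w T (k + 1) = mk W r (fun j => mmod 1
      (gt W (mulR p W r F (compK p W r F w T k) T) j +
        (if j = 0 then gt W w (r - 1 - k) else 0)) p) := rfl
    rw [h0, ev'_mk hp hW x (fun _ => mmod_lt hp)]
    have h1 : ∀ j ∈ range r, ((mmod 1 (gt W (mulR p W r F (compK p W r F w T k) T) j +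
        (if j = 0 then gt W w (r - 1 - k) else 0)) p : ℕ) : ZMod p) * x ^ j =
        ((gt W (mulR p W r F (compK p W r F w T k) T) j : ℕ) : ZMod p) * x ^ j +
          (if j = 0 then ((gt W w (r - 1 - k) : ℕ) : ZMod p) else 0) := by
      intro j _
      rw [mmod_cast _ _ hp.ne']
      split_ifs with hj
      · subst hj
        push_cast
        ring
      · push_cast
        ring
    rw [Finset.sum_congr rfl h1, Finset.sum_add_distrib,
      Finset.sum_ite_eq' (range r) 0 (fun _ => ((gt W w (r - 1 - k) : ℕ) : ZMod p)),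
      if_pos (Finset.mem_range.2 hr)]
    change ev' p W r x (mulR p W r F (compK p W r F w T k) T) + _ = _
    rw [ev'_mulR hp hW hr hx, ih, ← hy, Finset.sum_range_succ, Finset.sum_mul]
    congr 1
    · refine Finset.sum_congr rfl fun t ht => ?_
      have ht' := Finset.mem_range.1 ht
      have h2 : k + 1 - 1 - t = (k - 1 - t) + 1 := by omega
      rw [h2, pow_succ]
      ring
    · have h2 : k + 1 - 1 - k = 0 := by omega
      rw [h2, pow_zero, mul_one]

theorem ev'_comp (hp : 0 < p) (hW : p ≤ W) (hr : 0 < r) {F T : ℕ} {x y : ZMod p}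
    (hx : x ^ r = ev' p W r x F) (hy : y = ev' p W r x T) (w : ℕ) :
    ev' p W r x (comp p W r F w T) = ev' p W r y w := by
  unfold comp
  rw [ev'_compK hp hW hr hx hy]
  exact Finset.sum_range_reflect (fun k => ((gt W w k : ℕ) : ZMod p) * y ^ k) r

theorem ev'_oneR (hp : 1 < p) (hW : p ≤ W) (hr : 0 < r) (x : ZMod p) :
    ev' p W r x (oneR W r) = 1 := ev'_one hp hr hW x

theorem ev'_XR (hp : 1 < p) (hW : p ≤ W) (hr : 1 < r) (x : ZMod p) :
    ev' p W r x (XR W r) = x := by
  unfold XR
  rw [ev'_mk (by omega) hW x (fun k => by split_ifs <;> omega)]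
  have h1 : ∀ k ∈ range r, (((if k = 1 then 1 else 0 : ℕ) : ℕ) : ZMod p) * x ^ k =
      if k = 1 then x else 0 := by
    intro k _
    split_ifs with h
    · subst h; simp
    · simp
  rw [Finset.sum_congr rfl h1, Finset.sum_ite_eq' (range r) 1 (fun _ => x),
    if_pos (Finset.mem_range.2 hr)]

theorem ev'_powR (hp : 1 < p) (hW : p ≤ W) (hr : 0 < r) {F : ℕ} {x : ZMod p}
    (hx : x ^ r = ev' p W r x F) (v k : ℕ) :
    ev' p W r x (powR p W r F v k) = ev' p W r x v ^ k := by
  induction k with
  | zero => rw [pow_zero]; exact ev'_oneR hp hW hr x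
  | succ k ih =>
    show ev' p W r x (mulR p W r F (powR p W r F v k) v) = _
    rw [ev'_mulR (by omega) hW hr hx, ih, pow_succ]

theorem ev'_powB (hp : 1 < p) (hW : p ≤ W) (hr : 0 < r) {F : ℕ} {x : ZMod p}
    (hx : x ^ r = ev' p W r x F) (v : ℕ) (l : List Bool) :
    ev' p W r x (powB p W r F v l) = ev' p W r x v ^ (bval l.reverse) := by
  induction l using List.reverseRecOn with
  | nil =>
    rw [List.reverse_nil, bval_nil, pow_zero]
    exact ev'_oneR hp hW hr x
  | append_singleton l b ih =>
    unfold powB at ih ⊢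
    rw [List.foldl_append, List.foldl_cons, List.foldl_nil, ev'_mulR (by omega) hW hr hx,
      ev'_mulR (by omega) hW hr hx, ih, List.reverse_append, List.reverse_singleton,
      List.singleton_append, bval_cons]
    cases b
    · simp only [Bool.false_eq_true, if_false, Bool.toNat_false, zero_add]
      rw [ev'_oneR hp hW hr x, mul_one, ← pow_add]
      congr 1
      ring
    · simp only [if_true, Bool.toNat_true]
      rw [← pow_add, ← pow_succ]
      congr 1
      ring

/-- the coordinates are determined by the values at `r` different points -/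
theorem coord_unique [Fact p.Prime] {al : ℕ → ZMod p}
    (hal : ∀ i < r, ∀ j < r, al i = al j → i = j) {v w : ℕ → ZMod p}
    (h : ∀ i < r, ∑ k ∈ range r, v k * al i ^ k = ∑ k ∈ range r, w k * al i ^ k) :
    ∀ k < r, v k = w k := by
  classical
  set P : Polynomial (ZMod p) := ∑ k ∈ range r, Polynomial.monomial k (v k - w k) with hP
  have hcoeff : ∀ k < r, P.coeff k = v k - w k := by
    intro k hk
    rw [hP, Polynomial.finsetSum_coeff]
    simp only [Polynomial.coeff_monomial]
    rw [Finset.sum_ite_eq' (range r) k (fun j => v j - w j), if_pos (Finset.mem_range.2 hk)]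
  have hdeg : P.natDegree < r ∨ r = 0 := by
    rcases Nat.eq_zero_or_pos r with h0 | h0
    · exact Or.inr h0
    · left
      have h1 : P.natDegree ≤ r - 1 := by
        rw [hP]
        refine Polynomial.natDegree_sum_le_of_forall_le _ _ fun k hk => ?_
        refine (Polynomial.natDegree_monomial_le _).trans ?_
        have := Finset.mem_range.1 hk
        omega
      omega
  have heval : ∀ i < r, P.eval (al i) = 0 := by
    intro i hi
    rw [hP, Polynomial.eval_finsetSum]
    simp only [Polynomial.eval_monomial, sub_mul]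
    rw [Finset.sum_sub_distrib, h i hi, sub_self]
  have hP0 : P = 0 := by
    rcases hdeg with hdeg | h0
    · refine Polynomial.eq_zero_of_natDegree_lt_card_of_eval_eq_zero P
        (f := fun i : Fin r => al i) (fun i j hij => Fin.ext (hal i i.2 j j.2 hij))
        (fun i => heval i i.2) ?_
      rw [Fintype.card_fin]
      exact hdeg
    · subst h0
      rw [hP]
      simp
  intro k hk
  have h1 := hcoeff k hk
  rw [hP0, Polynomial.coeff_zero] at h1
  exact (sub_eq_zero.1 h1.symm)

end

end Pool.Agent.RNM
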