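import Pool.Agent.QNM.Comp
import Pool.Agent.QNM.Vec

/-! # Vectors in polynomial time -/

set_option autoImplicit false

namespace Pool.Agent.RNM

open Pool.Agent.PRT Pool.Agent.QNM Pool.NPC Pool.NPC.Enc Pool.NPC.Tr Polynomial

variable {α : Type} [Enc α]

theorem BT.gt {W V k : α → ℕ} (hW : BT W) (hV : BT V) (hk : PT k) :
    BT (fun a => gt (W a) (V a) (k a)) :=
  BT.mod (BT.div hV (BT.powU hW hk)) hW

theorem BT.mk {W m : α → ℕ} {F : α × ℕ → ℕ} (hW : BT W) (h0 : ∀ a, 0 < W a) (hm : PT m)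
    (hF : BT F) : BT (fun a => mk (W a) (m a) (fun k => F (a, k))) := by
  obtain ⟨Q, hQ⟩ := (BT.powU hW hm).size
  have hW' : BT (fun y : α × (ℕ × Bin) => W y.1) := BT.comp (F := W) hW PT.fst
  have hF' : BT (fun y : α × (ℕ × Bin) => F (y.1, y.2.1)) :=
    BT.comp (F := F) hF (PT.pair PT.fst (PT.fst' (PT.snd' PT.id)))
  have hi : PT (fun y : α × (ℕ × Bin) => y.2.1) := PT.fst' (PT.snd' PT.id)
  have hs : BT (fun y : α × (ℕ × Bin) => y.2.2.val) := PT.snd' (PT.snd' PT.id)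
  exact BT.natRec (n := m) (z := fun _ => 0)
    (g := fun y => y.2.2.val + F (y.1, y.2.1) % W y.1 * W y.1 ^ y.2.1) hm (BT.const 0)
    (BT.add hs (BT.mul (BT.mod hF' hW') (BT.powU hW' hi))) Q fun a i hi => by
      refine (Nat.size_le_size ?_).trans (hQ a)
      exact (mk_lt (h0 a) i (fun k => F (a, k))).le.trans (Nat.pow_le_pow_right (h0 a) hi)

end Pool.Agent.RNM
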