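import Pool.Agent.RNM.Alg

/-!
# The candidates

The digits of `i` in base `B = 2 N + 1` are: `f_0 + N, ..., f_(r-1) + N`, `S_0 + N, ..., S_(r-1) + N`,
`D + N`, and three numbers `k, j, l < r`.
-/

set_option autoImplicit false

namespace Pool.Agent.RNM

open Pool.Agent.PRT Pool.Agent.QNM Finset

/-- the vector of the `- f_k` -/
def FV (p W r N i : ℕ) : ℕ := mk W r (fun k => mmod 1 (N + gt (2 * N + 1) i k * (p - 1)) p)

/-- the vector `S / D` -/
def TV (p W r N i : ℕ) : ℕ :=
  mk W r (fun k => mmod (gt (2 * N + 1) i (r + k) + N * (p - 1))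
    (pmod (gt (2 * N + 1) i (2 * r) + N * (p - 1)) (p - 2) p) p)

/-- the sequence `h_0 = X ^ ((p - 1) / r)`, `h_(k+1) = h_k (T) h_k ^ (r - 1)` -/
def hV (p W r F T k : ℕ) : ℕ :=
  Nat.rec (motive := fun _ => ℕ) (powB p W r F (XR W r) (Nat.bits ((p - 1) / r)).reverse)
    (fun _ s => mulR p W r F (comp p W r F s T) (powR p W r F s (r - 1))) k

/-- `∑_(t < n) z ^ ((r - 1) j t) h ^ t` -/
def EK (p W r F h z j n : ℕ) : ℕ :=
  Nat.rec (motive := fun _ => ℕ) 0
    (fun t acc => mk W r (fun k => mmod 1 (gt W acc k +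
      pmod z ((r - 1) * j * t) p * gt W (powR p W r F h t) k) p)) n

/-- the candidate from the vector `E` -/
def cE (p W r F E l : ℕ) : ℕ :=
  mmod (gt W (mulX p W r F E) l) (pmod (gt W E l) (p - 2) p) p

/-- the candidate -/
def cF (p W r F T k j l : ℕ) : ℕ :=
  cE p W r F (EK p W r F (hV p W r F T k) (gt W (hV p W r F T (k + 1)) 0) j r) l

/-- the candidate number `i` -/
def cand (p W r N i : ℕ) : ℕ :=
  cF p W r (FV p W r N i) (TV p W r N i) (gt (2 * N + 1) i (2 * r + 1))
    (gt (2 * N + 1) i (2 * r + 2)) (gt (2 * N + 1) i (2 * r + 3))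

section

variable {p W r : ℕ}

theorem ev'_EK (hp : 0 < p) (hW : p ≤ W) (hp1 : 1 < p) (hr : 0 < r) {F : ℕ} {x : ZMod p}
    (hx : x ^ r = ev' p W r x F) (h z j n : ℕ) :
    ev' p W r x (EK p W r F h z j n) =
      ∑ t ∈ range n, ((z : ZMod p) ^ ((r - 1) * j) * ev' p W r x h) ^ t := by
  induction n with
  | zero => simp [EK, ev', gt]
  | succ n ih =>
    have h0 : EK p W r F h z j (n + 1) = mk W r (fun k => mmod 1 (gt W (EK p W r F h z j n) k +
      pmod z ((r - 1) * j * n) p * gt W (powR p W r F h n) k) p) := rfl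
    rw [h0, ev'_mk hp hW x (fun _ => mmod_lt hp)]
    have h1 : ∀ k ∈ range r, ((mmod 1 (gt W (EK p W r F h z j n) k +
        pmod z ((r - 1) * j * n) p * gt W (powR p W r F h n) k) p : ℕ) : ZMod p) * x ^ k =
        ((gt W (EK p W r F h z j n) k : ℕ) : ZMod p) * x ^ k +
          (z : ZMod p) ^ ((r - 1) * j * n) *
            (((gt W (powR p W r F h n) k : ℕ) : ZMod p) * x ^ k) := by
      intro k _
      rw [mmod_cast _ _ hp.ne']
      push_cast
      rw [pmod_cast _ _ hp.ne']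
      ring
    rw [Finset.sum_congr rfl h1, Finset.sum_add_distrib, ← Finset.mul_sum]
    change ev' p W r x (EK p W r F h z j n) + (z : ZMod p) ^ ((r - 1) * j * n) *
      ev' p W r x (powR p W r F h n) = _
    rw [ih, ev'_powR hp1 hW hr hx, Finset.sum_range_succ, mul_pow, ← pow_mul]

theorem ev'_hV_zero (hp : 1 < p) (hW : p ≤ W) (hr : 1 < r) {F T : ℕ} {x : ZMod p}
    (hx : x ^ r = ev' p W r x F) :
    ev' p W r x (hV p W r F T 0) = x ^ ((p - 1) / r) := by
  show ev' p W r x (powB p W r F (XR W r) (Nat.bits ((p - 1) / r)).reverse) = _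
  rw [ev'_powB hp hW (by omega) hx, List.reverse_reverse, bval_bits, ev'_XR hp hW hr]

theorem ev'_hV_succ (hp : 1 < p) (hW : p ≤ W) (hr : 1 < r) {F T : ℕ} {x y : ZMod p}
    (hx : x ^ r = ev' p W r x F) (hy : y = ev' p W r x T) (k : ℕ) :
    ev' p W r x (hV p W r F T (k + 1)) =
      ev' p W r y (hV p W r F T k) * ev' p W r x (hV p W r F T k) ^ (r - 1) := by
  show ev' p W r x (mulR p W r F (comp p W r F (hV p W r F T k) T)
    (powR p W r F (hV p W r F T k) (r - 1))) = _
  rw [ev'_mulR (by omega) hW (by omega) hx, ev'_comp (by omega) hW (by omega) hx hy,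
    ev'_powR hp hW (by omega) hx]

end

/-- the statement of the trick for `r` functions on `ZMod r` -/
def Trick (r p : ℕ) : Prop := ∀ h : ℕ → ZMod r → ZMod p, (∀ i, h 0 i ^ r = 1) →
  (∀ k i, h (k + 1) i = h k (i + 1) * h k i ^ (r - 1)) → (∃ i j, h 0 i ≠ h 0 j) →
  ∃ k < r, ∃ z c : ZMod p, z ≠ 1 ∧ z ^ r = 1 ∧ c ^ r = 1 ∧
    ∀ i : ZMod r, h (k + 1) i = z ∧ h k i = c * z ^ i.val

/-- One of the candidates is a root `al i0` of `f` with `al i0 ^ ((p - 1) / r) ≠ 1`. -/
theorem exists_cand {p W r : ℕ} [hpf : Fact p.Prime] [hrf : Fact r.Prime] (hW : p ≤ W)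
    (htrick : Trick r p) (hrp : r ∣ p - 1) {F T : ℕ} {al : ℕ → ZMod p}
    (hF : ∀ i < r, al i ^ r = ev' p W r (al i) F)
    (hT : ∀ i < r, al ((i + 1) % r) = ev' p W r (al i) T)
    (hinj : ∀ i < r, ∀ j < r, al i = al j → i = j) (h0 : ∀ i < r, al i ≠ 0)
    (hne : ∃ i < r, ∃ j < r, al i ^ ((p - 1) / r) ≠ al j ^ ((p - 1) / r)) :
    ∃ i < r, al i ^ ((p - 1) / r) ≠ 1 ∧
      ∃ k < r, ∃ j < r, ∃ l < r, ((cF p W r F T k j l : ℕ) : ZMod p) = al i := by
  have hp : p.Prime := hpf.out
  have hr : r.Prime := hrf.out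
  have hr1 : 1 < r := hr.one_lt
  have hr0 : 0 < r := hr.pos
  have hrne : (r : ZMod p) ≠ 0 := by
    rw [Ne, ZMod.natCast_eq_zero_iff]
    intro hd
    have h1 := Nat.le_of_dvd hr0 hd
    have h2 := Nat.le_of_dvd (by have := hp.two_le; omega) hrp
    have := hp.two_le
    omega
  -- the functions on `ZMod r`
  set h : ℕ → ZMod r → ZMod p := fun k i => ev' p W r (al i.val) (hV p W r F T k) with hh
  have hval : ∀ i : ZMod r, i.val < r := fun i => ZMod.val_lt i
  have hpow : ∀ i < r, (al i ^ ((p - 1) / r)) ^ r = 1 := by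
    intro i hi
    rw [← pow_mul, Nat.div_mul_cancel hrp]
    exact ZMod.pow_card_sub_one_eq_one (h0 i hi)
  have hh0 : ∀ i : ZMod r, h 0 i = al i.val ^ ((p - 1) / r) := fun i =>
    ev'_hV_zero hp.one_lt hW hr1 (hF _ (hval i))
  have hsucc : ∀ k (i : ZMod r), h (k + 1) i = h k (i + 1) * h k i ^ (r - 1) := by
    intro k i
    have h1 : (i + 1).val = (i.val + 1) % r := by
      rw [ZMod.val_add, ZMod.val_one'' (by omega)]
    simp only [hh]
    rw [h1]
    exact ev'_hV_succ hp.one_lt hW hr1 (hF _ (hval i)) (hT _ (hval i)) k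
  have hnc : ∃ i j, h 0 i ≠ h 0 j := by
    obtain ⟨i, hi, j, hj, hij⟩ := hne
    refine ⟨(i : ZMod r), (j : ZMod r), ?_⟩
    rw [hh0, hh0, ZMod.val_natCast_of_lt hi, ZMod.val_natCast_of_lt hj]
    exact hij
  obtain ⟨k, hk, z, c, hz1, hzr, hcr, hkz⟩ :=
    htrick h (fun i => by rw [hh0]; exact hpow _ (hval i)) hsucc hnc
  -- the coordinate 0 of `h_(k+1)` is `z`
  have hz0 : ((gt W (hV p W r F T (k + 1)) 0 : ℕ) : ZMod p) = z := by
    have h1 := coord_unique hinj (v := fun t => ((gt W (hV p W r F T (k + 1)) t : ℕ) : ZMod p))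
      (w := fun t => if t = 0 then z else 0) (fun i hi => by
        have h2 := (hkz (i : ZMod r)).1
        simp only [hh] at h2
        rw [ZMod.val_natCast_of_lt hi] at h2
        have h3 : ∑ t ∈ range r, (if t = 0 then z else 0) * al i ^ t = z := by
          have h4 : ∀ t ∈ range r, (if t = 0 then z else 0) * al i ^ t =
              if t = 0 then z else 0 := by
            intro t _
            split_ifs with ht
            · subst ht; simp
            · ring
          rw [Finset.sum_congr rfl h4, Finset.sum_ite_eq' (range r) 0 (fun _ => z),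
            if_pos (Finset.mem_range.2 hr0)]
        rw [h3]
        exact h2) 0 hr0
    simpa using h1
  -- `z` is a primitive root of unity
  have hzprim : IsPrimitiveRoot z r := by
    rw [IsPrimitiveRoot.iff_orderOf]
    have h1 := orderOf_dvd_of_pow_eq_one hzr
    rcases (Nat.dvd_prime hr).1 h1 with h2 | h2
    · exact absurd (orderOf_eq_one_iff.1 h2) hz1
    · exact h2
  -- a root with a nontrivial power
  obtain ⟨i0, hi0, hi0'⟩ : ∃ i < r, al i ^ ((p - 1) / r) ≠ 1 := by
    by_contra hcon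
    push Not at hcon
    obtain ⟨i, hi, j, hj, hij⟩ := hne
    exact hij (by rw [hcon i hi, hcon j hj])
  -- the index `j`
  obtain ⟨j, hj, hjz⟩ : ∃ j < r, z ^ j = c * z ^ i0 := by
    have h1 : (c * z ^ i0) ^ r = 1 := by
      rw [mul_pow, hcr, one_mul, ← pow_mul, mul_comm i0 r, pow_mul, hzr, one_pow]
    exact hzprim.eq_pow_of_pow_eq_one h1
  obtain ⟨E, hE⟩ : ∃ E, E = EK p W r F (hV p W r F T k) (gt W (hV p W r F T (k + 1)) 0) j r :=
    ⟨_, rfl⟩
  have hEv : ∀ i < r, ev' p W r (al i) E = if i = i0 then (r : ZMod p) else 0 := by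
    intro i hi
    rw [hE, ev'_EK hp.pos hW hp.one_lt hr0 (hF i hi), hz0]
    have h2 := (hkz (i : ZMod r)).2
    simp only [hh] at h2
    rw [ZMod.val_natCast_of_lt hi] at h2
    rw [h2]
    have h3 : z ^ ((r - 1) * j) * z ^ j = 1 := by
      rw [← pow_add]
      have h4 : (r - 1) * j + j = r * j := by
        obtain ⟨r', rfl⟩ : ∃ r', r = r' + 1 := ⟨r - 1, by omega⟩
        rw [Nat.add_sub_cancel]
        ring
      rw [h4, pow_mul, hzr, one_pow]
    split_ifs with hii
    · subst hii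
      rw [← hjz, h3]
      simp
    · have hw : z ^ ((r - 1) * j) * (c * z ^ i) ≠ 1 := by
        intro h5
        have h6 : c * z ^ i = z ^ j := by
          have h7 : z ^ j * (z ^ ((r - 1) * j) * (c * z ^ i)) = z ^ j := by rw [h5, mul_one]
          rw [← mul_assoc, mul_comm (z ^ j), h3, one_mul] at h7
          exact h7
        rw [hjz] at h6
        have hc0 : c ≠ 0 := by
          rintro rfl
          rw [zero_pow hr0.ne'] at hcr
          exact zero_ne_one hcr
        exact hii (hzprim.pow_inj hi hi0 (mul_left_cancel₀ hc0 h6))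
      have hwr : (z ^ ((r - 1) * j) * (c * z ^ i)) ^ r = 1 := by
        have a1 : ∀ n : ℕ, (z ^ n) ^ r = 1 := fun n => by
          rw [← pow_mul, mul_comm, pow_mul, hzr, one_pow]
        rw [mul_pow, mul_pow, a1, a1, hcr, one_mul, one_mul]
      have h8 := mul_neg_geom_sum (z ^ ((r - 1) * j) * (c * z ^ i)) r
      rw [hwr, sub_self] at h8
      exact (mul_eq_zero.1 h8).resolve_left (sub_ne_zero.2 (Ne.symm hw))
  have hXE : ∀ i < r, ev' p W r (al i) (mulX p W r F E) = al i0 * ev' p W r (al i) E := by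
    intro i hi
    rw [ev'_mulX hp.pos hW hr0 (hF i hi), hEv i hi]
    split_ifs with hii
    · rw [hii]
    · ring
  have hco := coord_unique hinj (v := fun t => ((gt W (mulX p W r F E) t : ℕ) : ZMod p))
    (w := fun t => al i0 * ((gt W E t : ℕ) : ZMod p)) (fun i hi => by
      have h1 := hXE i hi
      unfold ev' at h1
      rw [h1, Finset.mul_sum]
      exact Finset.sum_congr rfl fun t _ => by ring)
  -- a coordinate which is not 0
  obtain ⟨l, hl, hl0⟩ : ∃ l < r, ((gt W E l : ℕ) : ZMod p) ≠ 0 := by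
    by_contra hcon
    push Not at hcon
    have h1 := hEv i0 hi0
    rw [if_pos rfl] at h1
    unfold ev' at h1
    rw [Finset.sum_eq_zero (fun t ht => by rw [hcon t (Finset.mem_range.1 ht), zero_mul])] at h1
    exact hrne h1.symm
  refine ⟨i0, hi0, hi0', k, hk, j, hj, l, hl, ?_⟩
  unfold cF cE
  rw [← hE, mmod_cast _ _ hp.ne_zero, pmod_cast _ _ hp.ne_zero]
  have h1 : ((gt W (mulX p W r F E) l : ℕ) : ZMod p) = al i0 * ((gt W E l : ℕ) : ZMod p) :=
    hco l hl
  have h2 : ((gt W E l : ℕ) : ZMod p) * ((gt W E l : ℕ) : ZMod p) ^ (p - 2) = 1 := by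
    rw [← pow_succ']
    have h4 : p - 2 + 1 = p - 1 := by have := hp.two_le; omega
    rw [h4]
    exact ZMod.pow_card_sub_one_eq_one hl0
  rw [h1]
  linear_combination al i0 * h2

end Pool.Agent.RNM
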