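import Mathlib

/-!
# Interface between the number theory and the machine, `r`-th power nonresidues

`B = Nat.size p ^ C`, `Nat.size p` the number of binary digits of `p`.  `f` is the monic polynomial
`X ^ r + ∑ f_k X ^ k`, `al i` its roots modulo `p`, `i < r`, and `al (i + 1) = S (al i) / D`.
-/

set_option autoImplicit false

namespace Pool.Agent.RNM

open Finset

/-- the number theoretic input -/
def SmallR (r : ℕ) : Prop :=
  ∃ C p0 : ℕ, ∀ (p : ℕ) [Fact p.Prime], p0 ≤ p → r ∣ p - 1 →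
    (∃ x : ℤ, |x| ≤ (Nat.size p ^ C : ℕ) ∧ ∀ y : ZMod p, y ^ r ≠ (x : ZMod p)) ∨
    ∃ (f S : ℕ → ℤ) (D : ℤ) (al : ℕ → ZMod p),
      (∀ k < r, |f k| ≤ (Nat.size p ^ C : ℕ) ∧ |S k| ≤ (Nat.size p ^ C : ℕ)) ∧
      |D| ≤ (Nat.size p ^ C : ℕ) ∧ (D : ZMod p) ≠ 0 ∧
      (∀ i < r, ∀ j < r, al i = al j → i = j) ∧ (∀ i < r, al i ≠ 0) ∧
      (∀ i < r, al i ^ r + ∑ k ∈ range r, (f k : ZMod p) * al i ^ k = 0) ∧
      (∀ i < r, (D : ZMod p) * al ((i + 1) % r) = ∑ k ∈ range r, (S k : ZMod p) * al i ^ k) ∧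
      ∃ i < r, ∃ j < r, al i ^ ((p - 1) / r) ≠ al j ^ ((p - 1) / r)

end Pool.Agent.RNM
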