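import Pool.Agent.RNM.Trick
import Pool.Agent.RNM.Def

/-! # The residue of order `r ^ v`, `v` the exponent of `r` in `p - 1` -/

set_option autoImplicit false

namespace Pool.Agent.RNM

open Pool.Agent.PRT Pool.Agent.QNM Finset

/-- the base of the vectors -/
def WR (p : ℕ) : ℕ := 2 ^ Nat.size p

/-- the number of candidates -/
def BR (r N : ℕ) : ℕ := (2 * N + 1) ^ (2 * r + 4)

/-- the generators: `-1, 2, ..., N` and the candidates (`1` if the candidate is `0`) -/
def gR (r p N i : ℕ) : ℕ := if i ≤ N then rn p i else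
  if cand p (WR p) r N (i - N - 1) = 0 then 1 else cand p (WR p) r N (i - N - 1)

/-- the `r`-part of the generator with the largest `r`-part -/
def zr (r p N : ℕ) : ℕ := iel p (fun i => gR r p N i) (N + BR r N) r

theorem le_WR (p : ℕ) : p ≤ WR p := (Nat.lt_size_self p).le

theorem cand_lt {p W r N i : ℕ} (hp : 0 < p) : cand p W r N i < p := by
  unfold cand cF cE
  exact mmod_lt hp

theorem gR_cast (p : ℕ) [hp : Fact p.Prime] (r N i : ℕ) :
    ((gR r p N i : ℕ) : ZMod p) = (toU p (gR r p N i) : ZMod p) := by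
  have hpp : p.Prime := hp.out
  unfold gR
  split_ifs with h h0
  · have h1 : ((rn p i : ℕ) : ZMod p) ≠ 0 := by
      rw [rn_cast]; exact (aU p i).ne_zero
    rw [toU_val p h1]
  · have h1 : ((1 : ℕ) : ZMod p) ≠ 0 := by
      rw [Nat.cast_one]; exact one_ne_zero
    rw [toU_val p h1]
  · have h1 : ((cand p (WR p) r N (i - N - 1) : ℕ) : ZMod p) ≠ 0 := by
      rw [Ne, ZMod.natCast_eq_zero_iff]
      intro hd
      have h2 := Nat.le_of_dvd (Nat.pos_of_ne_zero h0) hd
      have h3 := cand_lt (p := p) (W := WR p) (r := r) (N := N) (i := i - N - 1) hpp.pos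
      omega
    rw [toU_val p h1]

/-- in a cyclic group of order `n` the elements with `u ^ (n / r) = 1` are the `r`-th powers -/
theorem exists_pow_of_pow_div (p : ℕ) [hpf : Fact p.Prime] {r : ℕ} (hr : r.Prime)
    (hrp : r ∣ p - 1) {u : (ZMod p)ˣ} (hu : u ^ ((p - 1) / r) = 1) :
    ∃ w : (ZMod p)ˣ, w ^ r = u := by
  have hp : p.Prime := hpf.out
  have hc : Nat.card (ZMod p)ˣ = p - 1 := by
    rw [Nat.card_eq_fintype_card, ZMod.card_units]
  obtain ⟨g, hg⟩ := IsCyclic.exists_ofOrder_eq_natCard (α := (ZMod p)ˣ)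
  have hgen : ∀ x : (ZMod p)ˣ, x ∈ Subgroup.zpowers g := by
    intro x
    have h1 : Subgroup.zpowers g = ⊤ := by
      rw [← Subgroup.card_eq_iff_eq_top, Nat.card_zpowers, hg]
    rw [h1]
    exact Subgroup.mem_top x
  have h2 : u ∈ Submonoid.powers g := by
    rw [mem_powers_iff_mem_zpowers]
    exact hgen u
  obtain ⟨k, hk⟩ := h2
  have hk' : g ^ k = u := hk
  have h0 : p - 1 ≠ 0 := by have := hp.two_le; omega
  have h3 : g ^ (k * ((p - 1) / r)) = 1 := by rw [pow_mul, hk', hu]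
  have h4 := orderOf_dvd_of_pow_eq_one h3
  rw [hg, hc] at h4
  obtain ⟨d, hd⟩ := hrp
  have hd0 : 0 < d := by
    rcases Nat.eq_zero_or_pos d with h | h
    · rw [h, mul_zero] at hd
      exact absurd hd h0
    · exact h
  rw [hd, Nat.mul_div_cancel_left _ hr.pos] at h4
  have h5 : r ∣ k := Nat.dvd_of_mul_dvd_mul_right hd0 h4
  obtain ⟨e, he⟩ := h5
  exact ⟨g ^ e, by rw [← hk', he, ← pow_mul, mul_comm]⟩

/-- the order of the `r`-part of an element which is no `r`-th power -/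
theorem ord_of_not_pow (p : ℕ) [hpf : Fact p.Prime] {r : ℕ} (hr : r.Prime) {u : (ZMod p)ˣ}
    (hu : r ∣ p - 1 → ∀ w : (ZMod p)ˣ, w ^ r ≠ u) :
    orderOf (u ^ PrimRoot.cofac (p - 1) r) = r ^ (p - 1).factorization r := by
  have hp : p.Prime := hpf.out
  have h0 : p - 1 ≠ 0 := by have := hp.two_le; omega
  have hc : Nat.card (ZMod p)ˣ = p - 1 := by
    rw [Nat.card_eq_fintype_card, ZMod.card_units]
  have hdvd : orderOf (u ^ PrimRoot.cofac (p - 1) r) ∣ r ^ (p - 1).factorization r := by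
    have h1 := PrimRoot.pow_cofac_pow u r
    rw [hc] at h1
    exact orderOf_dvd_of_pow_eq_one h1
  obtain ⟨e, he, heq⟩ := (Nat.dvd_prime_pow hr).1 hdvd
  rcases Nat.lt_or_ge e ((p - 1).factorization r) with h | h
  · exfalso
    have hrp : r ∣ p - 1 := by
      rw [hr.dvd_iff_one_le_factorization h0]
      omega
    obtain ⟨w, hw⟩ := exists_pow_of_pow_div p hr hrp (u := u) (by
      have h3 : (p - 1) / r = PrimRoot.cofac (p - 1) r * r ^ ((p - 1).factorization r - 1) := by
        apply Nat.div_eq_of_eq_mul_left hr.pos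
        rw [mul_assoc, ← pow_succ]
        have h4 : (p - 1).factorization r - 1 + 1 = (p - 1).factorization r := by omega
        rw [h4]
        exact (PrimRoot.cofac_mul).symm
      rw [h3, pow_mul]
      have h5 : orderOf (u ^ PrimRoot.cofac (p - 1) r) ∣ r ^ ((p - 1).factorization r - 1) := by
        rw [heq]
        exact pow_dvd_pow r (by omega)
      exact orderOf_dvd_iff_pow_eq_one.1 h5)
    exact hu hrp w hw
  · rw [heq]
    congr 1
    omega

theorem zr_spec (p : ℕ) [hpf : Fact p.Prime] {r N : ℕ} (hr : r.Prime)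
    (h : r ∣ p - 1 → ∃ i ∈ Icc 1 (N + BR r N), ∀ w : (ZMod p)ˣ, w ^ r ≠ toU p (gR r p N i)) :
    ∃ ζ : (ZMod p)ˣ, ((zr r p N : ℕ) : ZMod p) = ζ ∧ orderOf ζ = r ^ (p - 1).factorization r := by
  have hpp : p.Prime := hpf.out
  have hB : 1 ≤ N + BR r N := by
    have h1 : 0 < BR r N := by unfold BR; positivity
    omega
  have h0 : p - 1 ≠ 0 := by have := hpp.two_le; omega
  have hc : Nat.card (ZMod p)ˣ = p - 1 := by
    rw [Nat.card_eq_fintype_card, ZMod.card_units]
  have hcast : ∀ j ∈ Icc 1 (N + BR r N), (((fun j => gR r p N j) j : ℕ) : ZMod p) =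
      ((fun j => toU p (gR r p N j)) j : ZMod p) := fun j _ => gR_cast p r N j
  refine ⟨toU p (gR r p N (io p (fun j => gR r p N j) (N + BR r N) r)) ^
    PrimRoot.cofac (p - 1) r, iel_cast p hB hcast hr, ?_⟩
  have h3 : orderOf (toU p (gR r p N (io p (fun j => gR r p N j) (N + BR r N) r)) ^
      PrimRoot.cofac (p - 1) r) ∣ r ^ (p - 1).factorization r := by
    have h1 := PrimRoot.pow_cofac_pow
      (toU p (gR r p N (io p (fun j => gR r p N j) (N + BR r N) r))) r
    rw [hc] at h1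
    exact orderOf_dvd_of_pow_eq_one h1
  by_cases hrp : r ∣ p - 1
  · obtain ⟨i, hi, hns⟩ := h hrp
    have hrmem : r ∈ PrimRoot.smallPrimes r (p - 1) := by
      rw [PrimRoot.mem_smallPrimes]
      exact ⟨⟨hr, hrp, h0⟩, le_rfl⟩
    have hadm := io_adm p (g := fun j => gR r p N j) hB hcast r
    have h1 := (hadm r hrmem).2 i hi
    have h2 := ord_of_not_pow p hr (u := toU p (gR r p N i)) (fun _ => hns)
    have h4 := Nat.le_of_dvd (pow_pos hr.pos _) h3
    refine le_antisymm h4 ?_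
    rw [← h2]
    exact h1
  · rw [Nat.factorization_eq_zero_of_not_dvd hrp, pow_zero] at h3 ⊢
    exact Nat.dvd_one.1 h3

/-- a nonresidue `x` with `|x| ≤ N` -/
theorem exists_gen_small (p : ℕ) [hpf : Fact p.Prime] {r N : ℕ} (hr : r.Prime) (hr2 : r ≠ 2)
    {x : ℤ} (hx : |x| ≤ (N : ℕ)) (hns : ∀ y : ZMod p, y ^ r ≠ (x : ZMod p)) :
    ∃ i ∈ Icc 1 (N + BR r N), ∀ w : (ZMod p)ˣ, w ^ r ≠ toU p (gR r p N i) := by
  have hodd : Odd r := hr.odd_of_ne_two hr2
  have hx0 : (x : ZMod p) ≠ 0 := by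
    intro h
    exact hns 0 (by rw [zero_pow hr.ne_zero, h])
  obtain ⟨n, hn⟩ : ∃ n : ℕ, n = x.natAbs := ⟨_, rfl⟩
  have hxn : x = n ∨ x = -(n : ℤ) := by
    rw [hn]
    exact Int.natAbs_eq x
  have hnN : n ≤ N := by
    have h1 : |x| = (n : ℤ) := by rw [hn, Int.natCast_natAbs]
    rw [h1] at hx
    exact_mod_cast hx
  have hn0 : (n : ZMod p) ≠ 0 := by
    intro h
    apply hx0
    rcases hxn with h1 | h1
    · rw [h1]; push_cast; exact h
    · rw [h1]; push_cast; rw [h, neg_zero]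
  -- no `y ^ r` is `n`
  have hns' : ∀ y : ZMod p, y ^ r ≠ (n : ZMod p) := by
    intro y hy
    rcases hxn with h1 | h1
    · exact hns y (by rw [h1]; push_cast; exact hy)
    · exact hns (-y) (by rw [h1, hodd.neg_pow, hy]; push_cast; rfl)
  have hn1 : n ≠ 1 := by
    rintro rfl
    exact hns' 1 (by rw [one_pow, Nat.cast_one])
  have hnz : n ≠ 0 := by
    rintro rfl
    exact hn0 Nat.cast_zero
  refine ⟨n, Finset.mem_Icc.2 ⟨by omega, by omega⟩, fun w hw => ?_⟩
  have h2 : gR r p N n = n % p := by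
    unfold gR rn
    rw [if_pos hnN, if_neg hn1, if_neg]
    intro h3
    apply hn0
    rw [ZMod.natCast_eq_zero_iff]
    exact Nat.dvd_of_mod_eq_zero h3
  have h3 := congrArg (fun t : (ZMod p)ˣ => (t : ZMod p)) hw
  simp only [Units.val_pow_eq_pow_val] at h3
  rw [← gR_cast, h2, ZMod.natCast_mod] at h3
  exact hns' _ h3

/-- the digits of the index of the candidate -/
def Gd (r N : ℕ) (f S : ℕ → ℤ) (D : ℤ) (k0 j0 l0 k : ℕ) : ℕ :=
  if k < r then (f k + N).toNat else if k < 2 * r then (S (k - r) + N).toNat else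
    if k = 2 * r then (D + N).toNat else if k = 2 * r + 1 then k0 else
      if k = 2 * r + 2 then j0 else l0

theorem cast_digit {p N : ℕ} {x : ℤ} (hx : |x| ≤ (N : ℕ)) :
    (((x + N).toNat : ℕ) : ZMod p) = (x : ZMod p) + (N : ZMod p) := by
  have hx' := abs_le.1 hx
  have h5 : (((x + N).toNat : ℕ) : ℤ) = x + N := Int.toNat_of_nonneg (by omega)
  have h6 := congrArg (fun t : ℤ => (t : ZMod p)) h5
  simp only [Int.cast_natCast, Int.cast_add] at h6
  exact h6

theorem digit_lt {N : ℕ} {x : ℤ} (hx : |x| ≤ (N : ℕ)) : (x + N).toNat < 2 * N + 1 := by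
  have hx' := abs_le.1 hx
  omega

theorem mk_congr {W m : ℕ} {F G : ℕ → ℕ} (h : ∀ k < m, F k = G k) : mk W m F = mk W m G := by
  induction m with
  | zero => rfl
  | succ m ih => rw [mk_succ, mk_succ, ih (fun k hk => h k (by omega)), h m (by omega)]

theorem cast_pred {p : ℕ} (hp : 0 < p) : ((p - 1 : ℕ) : ZMod p) = -1 := by
  rw [Nat.cast_sub hp]
  simp

/-- one of the candidates is no `r`-th power -/
theorem exists_gen_cand (p : ℕ) [hpf : Fact p.Prime] {r N : ℕ} [hrf : Fact r.Prime]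
    (hrp : r ∣ p - 1) (hrN : r ≤ N) {f S : ℕ → ℤ} {D : ℤ} {al : ℕ → ZMod p}
    (hf : ∀ k < r, |f k| ≤ (N : ℕ) ∧ |S k| ≤ (N : ℕ)) (hD : |D| ≤ (N : ℕ))
    (hD0 : (D : ZMod p) ≠ 0) (hinj : ∀ i < r, ∀ j < r, al i = al j → i = j)
    (h0 : ∀ i < r, al i ≠ 0)
    (hroot : ∀ i < r, al i ^ r + ∑ k ∈ range r, (f k : ZMod p) * al i ^ k = 0)
    (hS : ∀ i < r, (D : ZMod p) * al ((i + 1) % r) = ∑ k ∈ range r, (S k : ZMod p) * al i ^ k)
    (hne : ∃ i < r, ∃ j < r, al i ^ ((p - 1) / r) ≠ al j ^ ((p - 1) / r)) :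
    ∃ i ∈ Icc 1 (N + BR r N), ∀ w : (ZMod p)ˣ, w ^ r ≠ toU p (gR r p N i) := by
  have hp : p.Prime := hpf.out
  have hr : r.Prime := hrf.out
  have hW := le_WR p
  -- the digits do not depend on the last three ones
  have key : ∀ k0 j0 l0 : ℕ, k0 < r → j0 < r → l0 < r →
      ∃ i, i < BR r N ∧ (∀ k < r, gt (2 * N + 1) i k = (f k + N).toNat) ∧
        (∀ k < r, gt (2 * N + 1) i (r + k) = (S k + N).toNat) ∧
        gt (2 * N + 1) i (2 * r) = (D + N).toNat ∧ gt (2 * N + 1) i (2 * r + 1) = k0 ∧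
        gt (2 * N + 1) i (2 * r + 2) = j0 ∧ gt (2 * N + 1) i (2 * r + 3) = l0 := by
    intro k0 j0 l0 hk0 hj0 hl0
    refine ⟨mk (2 * N + 1) (2 * r + 4) (Gd r N f S D k0 j0 l0), mk_lt (by omega) _ _, ?_, ?_, ?_,
      ?_, ?_, ?_⟩
    · intro k hk
      rw [gt_mk (by omega) _ (by omega)]
      unfold Gd
      rw [if_pos hk]
      exact Nat.mod_eq_of_lt (digit_lt (hf k hk).1)
    · intro k hk
      rw [gt_mk (by omega) _ (by omega)]
      unfold Gd
      rw [if_neg (by omega), if_pos (by omega), Nat.add_sub_cancel_left]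
      exact Nat.mod_eq_of_lt (digit_lt (hf k hk).2)
    · rw [gt_mk (by omega) _ (by omega)]
      unfold Gd
      rw [if_neg (by omega), if_neg (by omega), if_pos rfl]
      exact Nat.mod_eq_of_lt (digit_lt hD)
    · rw [gt_mk (by omega) _ (by omega)]
      unfold Gd
      rw [if_neg (by omega), if_neg (by omega), if_neg (by omega), if_pos rfl]
      exact Nat.mod_eq_of_lt (by omega)
    · rw [gt_mk (by omega) _ (by omega)]
      unfold Gd
      rw [if_neg (by omega), if_neg (by omega), if_neg (by omega), if_neg (by omega), if_pos rfl]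
      exact Nat.mod_eq_of_lt (by omega)
    · rw [gt_mk (by omega) _ (by omega)]
      unfold Gd
      rw [if_neg (by omega), if_neg (by omega), if_neg (by omega), if_neg (by omega),
        if_neg (by omega)]
      exact Nat.mod_eq_of_lt (by omega)
  -- the vectors do not depend on them either
  have hFV : ∀ i i' : ℕ, (∀ k < r, gt (2 * N + 1) i k = gt (2 * N + 1) i' k) →
      FV p (WR p) r N i = FV p (WR p) r N i' := by
    intro i i' h
    unfold FV
    exact mk_congr fun k hk => by rw [h k hk]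
  have hTV : ∀ i i' : ℕ, (∀ k < r, gt (2 * N + 1) i (r + k) = gt (2 * N + 1) i' (r + k)) →
      gt (2 * N + 1) i (2 * r) = gt (2 * N + 1) i' (2 * r) →
      TV p (WR p) r N i = TV p (WR p) r N i' := by
    intro i i' h h'
    unfold TV
    exact mk_congr fun k hk => by rw [h k hk, h']
  obtain ⟨i1, hi1, a1, a2, a3, -, -, -⟩ := key 0 0 0 hr.pos hr.pos hr.pos
  have hF : ∀ x : ZMod p, ev' p (WR p) r x (FV p (WR p) r N i1) =
      -∑ k ∈ range r, (f k : ZMod p) * x ^ k := by
    intro x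
    unfold FV
    rw [ev'_mk hp.pos hW x (fun _ => mmod_lt hp.pos), ← Finset.sum_neg_distrib]
    refine Finset.sum_congr rfl fun k hk => ?_
    have hk' := Finset.mem_range.1 hk
    rw [mmod_cast _ _ hp.ne_zero, a1 k hk']
    push_cast
    rw [cast_digit (hf k hk').1, cast_pred hp.pos]
    ring
  have hT : ∀ x : ZMod p, (D : ZMod p) * ev' p (WR p) r x (TV p (WR p) r N i1) =
      ∑ k ∈ range r, (S k : ZMod p) * x ^ k := by
    intro x
    unfold TV
    rw [ev'_mk hp.pos hW x (fun _ => mmod_lt hp.pos), Finset.mul_sum]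
    refine Finset.sum_congr rfl fun k hk => ?_
    have hk' := Finset.mem_range.1 hk
    rw [mmod_cast _ _ hp.ne_zero, a2 k hk', pmod_cast _ _ hp.ne_zero, a3]
    push_cast
    rw [cast_digit (hf k hk').2, cast_digit hD, cast_pred hp.pos]
    have h1 : (D : ZMod p) * (D : ZMod p) ^ (p - 2) = 1 := by
      rw [← pow_succ']
      have h4 : p - 2 + 1 = p - 1 := by have := hp.two_le; omega
      rw [h4]
      exact ZMod.pow_card_sub_one_eq_one hD0
    have h2 : (D : ZMod p) + (N : ZMod p) + (N : ZMod p) * (-1) = D := by ring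
    have h3 : (S k : ZMod p) + (N : ZMod p) + (N : ZMod p) * (-1) = S k := by ring
    rw [h2, h3]
    linear_combination (S k : ZMod p) * x ^ k * h1
  obtain ⟨i0, hi0, hi0', k0, hk0, j0, hj0, l0, hl0, hc⟩ := exists_cand (p := p) (W := WR p)
    (r := r) hW (trick r p) hrp (F := FV p (WR p) r N i1) (T := TV p (WR p) r N i1) (al := al)
    (fun i hi => by rw [hF]; linear_combination hroot i hi)
    (fun i hi => mul_left_cancel₀ hD0 (by rw [hT, hS i hi])) hinj h0 hne
  obtain ⟨i2, hi2, b1, b2, b3, b4, b5, b6⟩ := key k0 j0 l0 hk0 hj0 hl0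
  have hcand : ((cand p (WR p) r N i2 : ℕ) : ZMod p) = al i0 := by
    unfold cand
    rw [b4, b5, b6, hFV i2 i1 (fun k hk => by rw [b1 k hk, a1 k hk]),
      hTV i2 i1 (fun k hk => by rw [b2 k hk, a2 k hk]) (by rw [b3, a3])]
    exact hc
  refine ⟨i2 + N + 1, Finset.mem_Icc.2 ⟨by omega, by omega⟩, fun w hw => ?_⟩
  have hne0 : cand p (WR p) r N i2 ≠ 0 := by
    intro h
    rw [h, Nat.cast_zero] at hcand
    exact h0 i0 hi0 hcand.symm
  have h2 : gR r p N (i2 + N + 1) = cand p (WR p) r N i2 := by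
    unfold gR
    have h3 : i2 + N + 1 - N - 1 = i2 := by omega
    rw [if_neg (by omega), h3, if_neg hne0]
  have h3 := congrArg (fun t : (ZMod p)ˣ => (t : ZMod p)) hw
  simp only [Units.val_pow_eq_pow_val] at h3
  rw [← gR_cast, h2, hcand] at h3
  apply hi0'
  rw [← h3, ← pow_mul, Nat.mul_div_cancel' hrp]
  exact ZMod.pow_card_sub_one_eq_one w.ne_zero

end Pool.Agent.RNM
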