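import Pool.Agent.RNM.BG
import Pool.Agent.RNM.Spec

/-! # Polynomial time -/

set_option autoImplicit false

namespace Pool.Agent.RNM

open Pool.Agent.PRT Pool.Agent.QNM Pool.NPC Pool.NPC.Enc Pool.NPC.Tr Polynomial

variable {α : Type} [Enc α]

theorem BT.mulX {p W F w : α → ℕ} (r : ℕ) (hp : BT p) (hW : BT W) (h0 : ∀ a, 0 < W a)
    (hF : BT F) (hw : BT w) : BT (fun a => mulX (p a) (W a) r (F a) (w a)) := by
  refine BT.mk (F := fun x : α × ℕ => PRT.mmod 1 ((if x.2 = 0 then 0 else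
    QNM.gt (W x.1) (w x.1) (x.2 - 1)) + QNM.gt (W x.1) (w x.1) (r - 1) *
      QNM.gt (W x.1) (F x.1) x.2) (p x.1)) hW h0 (PT.const r) ?_
  have hW' : BT (fun y : α × ℕ => W y.1) := BT.comp (F := W) hW PT.fst
  have hw' : BT (fun y : α × ℕ => w y.1) := BT.comp (F := w) hw PT.fst
  exact BT.mmod (BT.const 1) (BT.add (BT.ite (PT.eq PT.snd (PT.const 0)) (BT.const 0)
    (BT.gt hW' hw' (PT.pred PT.snd))) (BT.mul (BT.gt hW' hw' (PT.const (r - 1)))
      (BT.gt hW' (BT.comp (F := F) hF PT.fst) PT.snd))) (BT.comp (F := p) hp PT.fst)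

theorem BT.mulR {p W F v w : α → ℕ} (r : ℕ) (hp : BT p) (hW : BT W) (h0 : ∀ a, 0 < W a)
    (hF : BT F) (hv : BT v) (hw : BT w) :
    BT (fun a => mulR (p a) (W a) r (F a) (v a) (w a)) := by
  obtain ⟨Q, hQ⟩ := (BT.powU hW (PT.const r)).size
  have hs : BT (fun y : (α × (ℕ × Bin)) × ℕ => y.1.2.2.val) :=
    PT.snd' (PT.snd' PT.fst)
  have hi : PT (fun y : (α × (ℕ × Bin)) × ℕ => y.1.2.1) := PT.fst' (PT.snd' PT.fst)
  have e1 : PT (fun y : (α × (ℕ × Bin)) × ℕ => y.1.1) := PT.fst' PT.fst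
  have hW' : BT (fun y : (α × (ℕ × Bin)) × ℕ => W y.1.1) := BT.comp (F := W) hW e1
  have hp' : BT (fun y : (α × (ℕ × Bin)) × ℕ => p y.1.1) := BT.comp (F := p) hp e1
  have hF' : BT (fun y : (α × (ℕ × Bin)) × ℕ => F y.1.1) := BT.comp (F := F) hF e1
  have hv' : BT (fun y : (α × (ℕ × Bin)) × ℕ => v y.1.1) := BT.comp (F := v) hv e1
  have hw' : BT (fun y : (α × (ℕ × Bin)) × ℕ => w y.1.1) := BT.comp (F := w) hw e1
  refine BT.natRec (n := fun _ => r) (z := fun _ => 0)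
    (g := fun y => QNM.mk (W y.1) r (fun k => PRT.mmod 1
      (QNM.gt (W y.1) (RNM.mulX (p y.1) (W y.1) r (F y.1) y.2.2.val) k +
        QNM.gt (W y.1) (v y.1) (r - 1 - y.2.1) * QNM.gt (W y.1) (w y.1) k) (p y.1)))
    (PT.const r) (BT.const 0) ?_ Q fun a i _ => by
      refine (Nat.size_le_size ?_).trans (hQ a)
      cases i with
      | zero => exact Nat.zero_le _
      | succ i => exact (mk_lt (h0 a) _ _).le
  refine BT.mk (F := fun y : (α × (ℕ × Bin)) × ℕ => PRT.mmod 1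
      (QNM.gt (W y.1.1) (RNM.mulX (p y.1.1) (W y.1.1) r (F y.1.1) y.1.2.2.val) y.2 +
        QNM.gt (W y.1.1) (v y.1.1) (r - 1 - y.1.2.1) * QNM.gt (W y.1.1) (w y.1.1) y.2) (p y.1.1))
    (BT.comp (F := W) hW PT.fst) (fun _ => h0 _) (PT.const r) ?_
  exact BT.mmod (BT.const 1) (BT.add (BT.gt hW' (BT.mulX r hp' hW' (fun _ => h0 _) hF' hs) PT.snd)
    (BT.mul (BT.gt hW' hv' (PT.sub (PT.const (r - 1)) hi)) (BT.gt hW' hw' PT.snd))) hp'

theorem mulR_le {p W r F v w : ℕ} (hW : 0 < W) : mulR p W r F v w ≤ W ^ r := by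
  cases r with
  | zero => exact Nat.zero_le _
  | succ r =>
    have h : mulR p W (r + 1) F v w = mk W (r + 1) (fun k => mmod 1
        (gt W (mulX p W (r + 1) F (mulK p W (r + 1) F v w r)) k +
          gt W v (r + 1 - 1 - r) * gt W w k) p) := rfl
    rw [h]
    exact (mk_lt hW _ _).le

theorem BT.comp' {p W F w T : α → ℕ} (r : ℕ) (hp : BT p) (hW : BT W) (h0 : ∀ a, 0 < W a)
    (hF : BT F) (hw : BT w) (hT : BT T) :
    BT (fun a => comp (p a) (W a) r (F a) (w a) (T a)) := by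
  obtain ⟨Q, hQ⟩ := (BT.powU hW (PT.const r)).size
  have hs : BT (fun y : (α × (ℕ × Bin)) × ℕ => y.1.2.2.val) :=
    PT.snd' (PT.snd' PT.fst)
  have hi : PT (fun y : (α × (ℕ × Bin)) × ℕ => y.1.2.1) := PT.fst' (PT.snd' PT.fst)
  have e1 : PT (fun y : (α × (ℕ × Bin)) × ℕ => y.1.1) := PT.fst' PT.fst
  have hW' : BT (fun y : (α × (ℕ × Bin)) × ℕ => W y.1.1) := BT.comp (F := W) hW e1
  have hp' : BT (fun y : (α × (ℕ × Bin)) × ℕ => p y.1.1) := BT.comp (F := p) hp e1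
  have hF' : BT (fun y : (α × (ℕ × Bin)) × ℕ => F y.1.1) := BT.comp (F := F) hF e1
  have hT' : BT (fun y : (α × (ℕ × Bin)) × ℕ => T y.1.1) := BT.comp (F := T) hT e1
  have hw' : BT (fun y : (α × (ℕ × Bin)) × ℕ => w y.1.1) := BT.comp (F := w) hw e1
  refine BT.natRec (n := fun _ => r) (z := fun _ => 0)
    (g := fun y => QNM.mk (W y.1) r (fun k => PRT.mmod 1
      (QNM.gt (W y.1) (RNM.mulR (p y.1) (W y.1) r (F y.1) y.2.2.val (T y.1)) k +
        (if k = 0 then QNM.gt (W y.1) (w y.1) (r - 1 - y.2.1) else 0)) (p y.1)))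
    (PT.const r) (BT.const 0) ?_ Q fun a i _ => by
      refine (Nat.size_le_size ?_).trans (hQ a)
      cases i with
      | zero => exact Nat.zero_le _
      | succ i => exact (mk_lt (h0 a) _ _).le
  refine BT.mk (F := fun y : (α × (ℕ × Bin)) × ℕ => PRT.mmod 1
      (QNM.gt (W y.1.1) (RNM.mulR (p y.1.1) (W y.1.1) r (F y.1.1) y.1.2.2.val (T y.1.1)) y.2 +
        (if y.2 = 0 then QNM.gt (W y.1.1) (w y.1.1) (r - 1 - y.1.2.1) else 0)) (p y.1.1))
    (BT.comp (F := W) hW PT.fst) (fun _ => h0 _) (PT.const r) ?_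
  exact BT.mmod (BT.const 1) (BT.add (BT.gt hW' (BT.mulR r hp' hW' (fun _ => h0 _) hF' hs hT')
    PT.snd) (BT.ite (PT.eq PT.snd (PT.const 0)) (BT.gt hW' hw' (PT.sub (PT.const (r - 1)) hi))
      (BT.const 0))) hp'

theorem BT.oneR {W : α → ℕ} (r : ℕ) (hW : BT W) (h0 : ∀ a, 0 < W a) :
    BT (fun a => oneR (W a) r) :=
  BT.mk (F := fun x : α × ℕ => if x.2 = 0 then 1 else 0) hW h0 (PT.const r)
    (BT.ite (PT.eq PT.snd (PT.const 0)) (BT.const 1) (BT.const 0))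

theorem BT.XR {W : α → ℕ} (r : ℕ) (hW : BT W) (h0 : ∀ a, 0 < W a) :
    BT (fun a => XR (W a) r) :=
  BT.mk (F := fun x : α × ℕ => if x.2 = 1 then 1 else 0) hW h0 (PT.const r)
    (BT.ite (PT.eq PT.snd (PT.const 1)) (BT.const 1) (BT.const 0))

theorem BT.powR {p W F v k : α → ℕ} (r : ℕ) (hp : BT p) (hW : BT W) (h0 : ∀ a, 0 < W a)
    (hF : BT F) (hv : BT v) (hk : PT k) :
    BT (fun a => powR (p a) (W a) r (F a) (v a) (k a)) := by
  obtain ⟨Q, hQ⟩ := (BT.powU hW (PT.const r)).size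
  have hs : BT (fun y : α × (ℕ × Bin) => y.2.2.val) := PT.snd' (PT.snd' PT.id)
  exact BT.natRec (n := k) (z := fun a => RNM.oneR (W a) r)
    (g := fun y => RNM.mulR (p y.1) (W y.1) r (F y.1) y.2.2.val (v y.1)) hk
    (BT.oneR r hW h0) (BT.mulR r (BT.comp (F := p) hp PT.fst) (BT.comp (F := W) hW PT.fst)
      (fun _ => h0 _) (BT.comp (F := F) hF PT.fst) hs (BT.comp (F := v) hv PT.fst)) Q
    fun a i _ => by
      refine (Nat.size_le_size ?_).trans (hQ a)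
      cases i with
      | zero => exact (mk_lt (h0 a) _ _).le
      | succ i => exact mulR_le (h0 a)

theorem powB_le {p W r F v : ℕ} (hW : 0 < W) (l : List Bool) : powB p W r F v l ≤ W ^ r := by
  unfold powB
  induction l using List.reverseRecOn with
  | nil => exact (mk_lt hW _ _).le
  | append_singleton l b ih =>
    rw [List.foldl_append]
    exact mulR_le hW

theorem BT.powB {p W F v : α → ℕ} {l : α → List Bool} (r : ℕ) (hp : BT p) (hW : BT W)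
    (h0 : ∀ a, 0 < W a) (hF : BT F) (hv : BT v) (hl : PT l) :
    BT (fun a => powB (p a) (W a) r (F a) (v a) (l a)) := by
  obtain ⟨Q, hQ⟩ := (BT.powU hW (PT.const r)).size
  have hs : BT (fun x : α × (Bool × Bin) => x.2.2.val) := BT.ofPT (PT.snd' (PT.snd' PT.id))
  have hb : PT (fun x : α × (Bool × Bin) => x.2.1) := PT.fst' (PT.snd' PT.id)
  have hp' : BT (fun x : α × (Bool × Bin) => p x.1) := BT.comp (F := p) hp (PT.fst' PT.id)
  have hW' : BT (fun x : α × (Bool × Bin) => W x.1) := BT.comp (F := W) hW (PT.fst' PT.id)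
  have hF' : BT (fun x : α × (Bool × Bin) => F x.1) := BT.comp (F := F) hF (PT.fst' PT.id)
  have hv' : BT (fun x : α × (Bool × Bin) => v x.1) := BT.comp (F := v) hv (PT.fst' PT.id)
  have hc : BT (fun x : α × (Bool × Bin) => if x.2.1 = true then v x.1 else RNM.oneR (W x.1) r) :=
    BT.ite (hb.congr fun a => by simp) hv' (BT.oneR r hW' (fun _ => h0 _))
  have hg : BT (fun x : α × (Bool × Bin) => RNM.mulR (p x.1) (W x.1) r (F x.1)
      (RNM.mulR (p x.1) (W x.1) r (F x.1) x.2.2.val x.2.2.val)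
      (if x.2.1 = true then v x.1 else RNM.oneR (W x.1) r)) :=
    BT.mulR r hp' hW' (fun _ => h0 _) hF' (BT.mulR r hp' hW' (fun _ => h0 _) hF' hs hs) hc
  exact BT.foldl (i := fun a => RNM.oneR (W a) r) hl (BT.oneR r hW h0) hg Q fun a l1 _ =>
    (Nat.size_le_size (powB_le (p := p a) (W := W a) (r := r) (F := F a) (v := v a) (h0 a) l1)).trans
      (hQ a)

theorem BT.FV {p W N i : α → ℕ} (r : ℕ) (hp : BT p) (hW : BT W) (h0 : ∀ a, 0 < W a)
    (hN : PT N) (hi : PT i) : BT (fun a => FV (p a) (W a) r (N a) (i a)) := by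
  have hp' : BT (fun y : α × ℕ => p y.1) := BT.comp (F := p) hp PT.fst
  have hN' : PT (fun y : α × ℕ => N y.1) := PT.comp (g := N) hN PT.fst
  have hi' : PT (fun y : α × ℕ => i y.1) := PT.comp (g := i) hi PT.fst
  refine BT.mk (F := fun x : α × ℕ => PRT.mmod 1 (N x.1 +
    QNM.gt (2 * N x.1 + 1) (i x.1) x.2 * (p x.1 - 1)) (p x.1)) hW h0 (PT.const r) ?_
  exact BT.mmod (BT.const 1) (BT.add (BT.ofUnary hN') (BT.mul
    (BT.gt (BT.ofUnary (PT.succ (PT.mul (PT.const 2) hN'))) (BT.ofUnary hi') PT.snd)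
    (BT.sub hp' (BT.const 1)))) hp'

theorem BT.TV {p W N i : α → ℕ} (r : ℕ) (hp : BT p) (hW : BT W) (h0 : ∀ a, 0 < W a)
    (hN : PT N) (hi : PT i) : BT (fun a => TV (p a) (W a) r (N a) (i a)) := by
  have hp' : BT (fun y : α × ℕ => p y.1) := BT.comp (F := p) hp PT.fst
  have hN' : PT (fun y : α × ℕ => N y.1) := PT.comp (g := N) hN PT.fst
  have hi' : PT (fun y : α × ℕ => i y.1) := PT.comp (g := i) hi PT.fst
  have hb : BT (fun y : α × ℕ => 2 * N y.1 + 1) := BT.ofUnary (PT.succ (PT.mul (PT.const 2) hN'))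
  refine BT.mk (F := fun x : α × ℕ => PRT.mmod (QNM.gt (2 * N x.1 + 1) (i x.1) (r + x.2) +
    N x.1 * (p x.1 - 1)) (PRT.pmod (QNM.gt (2 * N x.1 + 1) (i x.1) (2 * r) + N x.1 * (p x.1 - 1))
      (p x.1 - 2) (p x.1)) (p x.1)) hW h0 (PT.const r) ?_
  have hc : BT (fun y : α × ℕ => N y.1 * (p y.1 - 1)) :=
    BT.mul (BT.ofUnary hN') (BT.sub hp' (BT.const 1))
  exact BT.mmod (BT.add (BT.gt hb (BT.ofUnary hi') (PT.add (PT.const r) PT.snd)) hc)
    (BT.pmod (BT.add (BT.gt hb (BT.ofUnary hi') (PT.const (2 * r))) hc)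
      (BT.sub hp' (BT.const 2)) hp') hp'

theorem hV_le {p W r F T k : ℕ} (hW : 0 < W) : hV p W r F T k ≤ W ^ r := by
  cases k with
  | zero => exact powB_le hW _
  | succ k => exact mulR_le hW

theorem BT.hV {p W F T k : α → ℕ} (r : ℕ) (hp : BT p) (hW : BT W) (h0 : ∀ a, 0 < W a)
    (hF : BT F) (hT : BT T) (hk : PT k) :
    BT (fun a => hV (p a) (W a) r (F a) (T a) (k a)) := by
  obtain ⟨Q, hQ⟩ := (BT.powU hW (PT.const r)).size
  have hs : BT (fun y : α × (ℕ × Bin) => y.2.2.val) := PT.snd' (PT.snd' PT.id)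
  have hp' : BT (fun y : α × (ℕ × Bin) => p y.1) := BT.comp (F := p) hp PT.fst
  have hW' : BT (fun y : α × (ℕ × Bin) => W y.1) := BT.comp (F := W) hW PT.fst
  have hF' : BT (fun y : α × (ℕ × Bin) => F y.1) := BT.comp (F := F) hF PT.fst
  have hT' : BT (fun y : α × (ℕ × Bin) => T y.1) := BT.comp (F := T) hT PT.fst
  exact BT.natRec (n := k) (z := fun a => RNM.powB (p a) (W a) r (F a) (RNM.XR (W a) r)
      (Nat.bits ((p a - 1) / r)).reverse)
    (g := fun y => RNM.mulR (p y.1) (W y.1) r (F y.1)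
      (RNM.comp (p y.1) (W y.1) r (F y.1) y.2.2.val (T y.1))
      (RNM.powR (p y.1) (W y.1) r (F y.1) y.2.2.val (r - 1))) hk
    (BT.powB r hp hW h0 hF (BT.XR r hW h0)
      (PT.reverse (BT.div (BT.sub hp (BT.const 1)) (BT.const r)).bits))
    (BT.mulR r hp' hW' (fun _ => h0 _) hF' (BT.comp' r hp' hW' (fun _ => h0 _) hF' hs hT')
      (BT.powR r hp' hW' (fun _ => h0 _) hF' hs (PT.const (r - 1)))) Q
    fun a i _ => (Nat.size_le_size (hV_le (p := p a) (W := W a) (r := r) (F := F a) (T := T a)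
      (k := i) (h0 a))).trans (hQ a)

theorem BT.EK {p W F h z j n : α → ℕ} (r : ℕ) (hp : BT p) (hW : BT W) (h0 : ∀ a, 0 < W a)
    (hF : BT F) (hh : BT h) (hz : BT z) (hj : PT j) (hn : PT n) :
    BT (fun a => EK (p a) (W a) r (F a) (h a) (z a) (j a) (n a)) := by
  obtain ⟨Q, hQ⟩ := (BT.powU hW (PT.const r)).size
  have hs : BT (fun y : (α × (ℕ × Bin)) × ℕ => y.1.2.2.val) :=
    PT.snd' (PT.snd' PT.fst)
  have hi : PT (fun y : (α × (ℕ × Bin)) × ℕ => y.1.2.1) := PT.fst' (PT.snd' PT.fst)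
  have e1 : PT (fun y : (α × (ℕ × Bin)) × ℕ => y.1.1) := PT.fst' PT.fst
  have hW' : BT (fun y : (α × (ℕ × Bin)) × ℕ => W y.1.1) := BT.comp (F := W) hW e1
  have hp' : BT (fun y : (α × (ℕ × Bin)) × ℕ => p y.1.1) := BT.comp (F := p) hp e1
  have hF' : BT (fun y : (α × (ℕ × Bin)) × ℕ => F y.1.1) := BT.comp (F := F) hF e1
  have hh' : BT (fun y : (α × (ℕ × Bin)) × ℕ => h y.1.1) := BT.comp (F := h) hh e1
  have hz' : BT (fun y : (α × (ℕ × Bin)) × ℕ => z y.1.1) := BT.comp (F := z) hz e1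
  have hj' : PT (fun y : (α × (ℕ × Bin)) × ℕ => j y.1.1) := PT.comp (g := j) hj e1
  refine BT.natRec (n := n) (z := fun _ => 0)
    (g := fun y => QNM.mk (W y.1) r (fun k => PRT.mmod 1 (QNM.gt (W y.1) y.2.2.val k +
      PRT.pmod (z y.1) ((r - 1) * j y.1 * y.2.1) (p y.1) *
        QNM.gt (W y.1) (RNM.powR (p y.1) (W y.1) r (F y.1) (h y.1) y.2.1) k) (p y.1)))
    hn (BT.const 0) ?_ Q fun a i _ => by
      refine (Nat.size_le_size ?_).trans (hQ a)
      cases i with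
      | zero => exact Nat.zero_le _
      | succ i => exact (mk_lt (h0 a) _ _).le
  refine BT.mk (F := fun y : (α × (ℕ × Bin)) × ℕ => PRT.mmod 1 (QNM.gt (W y.1.1) y.1.2.2.val y.2 +
      PRT.pmod (z y.1.1) ((r - 1) * j y.1.1 * y.1.2.1) (p y.1.1) *
        QNM.gt (W y.1.1) (RNM.powR (p y.1.1) (W y.1.1) r (F y.1.1) (h y.1.1) y.1.2.1) y.2)
        (p y.1.1))
    (BT.comp (F := W) hW PT.fst) (fun _ => h0 _) (PT.const r) ?_
  exact BT.mmod (BT.const 1) (BT.add (BT.gt hW' hs PT.snd)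
    (BT.mul (BT.pmod hz' (BT.ofUnary (PT.mul (PT.mul (PT.const (r - 1)) hj') hi)) hp')
      (BT.gt hW' (BT.powR r hp' hW' (fun _ => h0 _) hF' hh' hi) PT.snd))) hp'

theorem BT.cF {p W F T k j l : α → ℕ} (r : ℕ) (hp : BT p) (hW : BT W) (h0 : ∀ a, 0 < W a)
    (hF : BT F) (hT : BT T) (hk : PT k) (hj : PT j) (hl : PT l) :
    BT (fun a => cF (p a) (W a) r (F a) (T a) (k a) (j a) (l a)) := by
  have hE : BT (fun a => RNM.EK (p a) (W a) r (F a) (RNM.hV (p a) (W a) r (F a) (T a) (k a))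
      (QNM.gt (W a) (RNM.hV (p a) (W a) r (F a) (T a) (k a + 1)) 0) (j a) r) :=
    BT.EK r hp hW h0 hF (BT.hV r hp hW h0 hF hT hk)
      (BT.gt hW (BT.hV r hp hW h0 hF hT (PT.succ hk)) (PT.const 0)) hj (PT.const r)
  exact BT.mmod (BT.gt hW (BT.mulX r hp hW h0 hF hE) hl)
    (BT.pmod (BT.gt hW hE hl) (BT.sub hp (BT.const 2)) hp) hp

theorem BT.WR' {p : α → ℕ} (hp : BT p) : BT (fun a => WR (p a)) :=
  BT.powU (BT.const 2) hp.sizeU

theorem WR_pos (p : ℕ) : 0 < WR p := by unfold WR; positivity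

theorem PT.gt' {B i : α → ℕ} (k : ℕ) (hB : PT B) (hi : PT i) :
    PT (fun a => gt (B a) (i a) k) :=
  PT.mod (PT.div hi (PT.powC hB k)) hB

theorem BT.cand {p N i : α → ℕ} (r : ℕ) (hp : BT p) (hN : PT N) (hi : PT i) :
    BT (fun a => cand (p a) (RNM.WR (p a)) r (N a) (i a)) := by
  have hW := BT.WR' hp
  have h0 : ∀ a, 0 < RNM.WR (p a) := fun a => WR_pos (p a)
  have hb : PT (fun a => 2 * N a + 1) := PT.succ (PT.mul (PT.const 2) hN)
  exact BT.cF r hp hW h0 (BT.FV r hp hW h0 hN hi) (BT.TV r hp hW h0 hN hi)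
    (PT.gt' (2 * r + 1) hb hi) (PT.gt' (2 * r + 2) hb hi) (PT.gt' (2 * r + 3) hb hi)

theorem BT.gR {p N i : α → ℕ} (r : ℕ) (hp : BT p) (hN : PT N) (hi : PT i) :
    BT (fun a => gR r (p a) (N a) (i a)) := by
  have hc := BT.cand r hp hN (PT.pred (PT.sub hi hN))
  exact BT.ite (PT.le hi hN) (BT.rn hp (BT.ofUnary hi))
    (BT.ite (BT.eq hc (BT.const 0)) (BT.const 1) hc)

theorem PT.BR {N : α → ℕ} (r : ℕ) (hN : PT N) : PT (fun a => BR r (N a)) :=
  PT.powC (PT.succ (PT.mul (PT.const 2) hN)) (2 * r + 4)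

theorem BT.zr {p N : α → ℕ} (r : ℕ) (hp : BT p) (hN : PT N) : BT (fun a => zr r (p a) (N a)) := by
  have hp' : BT (fun y : α × ℕ => p y.1) := BT.comp (F := p) hp PT.fst
  have hN' : PT (fun y : α × ℕ => N y.1) := PT.comp (g := N) hN PT.fst
  exact BT.iel (g := fun x : α × ℕ => RNM.gR r (p x.1) (N x.1) x.2) hp
    (BT.gR r hp' hN' PT.snd) (PT.add hN (PT.BR r hN)) (BT.const r)

/-- the residue of order `r ^ v`: for `p < p0` a table -/
def zrt (r C p0 : ℕ) (t : ℕ → ℕ) (p : ℕ) : ℕ := if p < p0 then t p else zr r p (Nat.size p ^ C)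

theorem BT.zrt (r C p0 : ℕ) (t : ℕ → ℕ) {p : α → ℕ} (hp : BT p) :
    BT (fun a => zrt r C p0 t (p a)) :=
  (BT.table t p0 hp (BT.zr r hp (PT.powC hp.sizeU C))).congr fun _ => rfl

end Pool.Agent.RNM
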