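import Pool.Agent.RNM.Main
import Pool.Agent.PRT.Main2

/-! # Lists of residues whose order is divisible by the `K`-smooth part of `p - 1` -/

set_option autoImplicit false

namespace Pool.Agent.RNM

open Pool.Agent.PRT Pool.Agent.QNM Pool.NPC Pool.NPC.Enc Pool.NPC.Tr Polynomial

/-- replace the `K`-smooth part of the order -/
def fx (K z p x : ℕ) : ℕ := mmod z (pmod x (mN p K) p) p

theorem smp_ne (K n : ℕ) : 0 < smp K n :=
  Finset.prod_pos fun r hr => pow_pos ((Nat.mem_primesLE.1 hr).2.pos) _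

theorem smoothPart_eq (K : ℕ) {n : ℕ} (hn : n ≠ 0) : PrimRoot.smoothPart K n = smp K n := by
  unfold PrimRoot.smoothPart smp
  refine Finset.prod_subset ?_ ?_
  · intro r hr
    rw [PrimRoot.mem_smallPrimes] at hr
    exact Nat.mem_primesLE.2 ⟨hr.2, hr.1.1⟩
  · intro r hr hr'
    rw [Nat.mem_primesLE] at hr
    have h1 : ¬ r ∣ n := fun h => hr' ((PrimRoot.mem_smallPrimes K).2 ⟨⟨hr.2, h, hn⟩, hr.1⟩)
    rw [Nat.factorization_eq_zero_of_not_dvd h1, pow_zero]

theorem pow_dvd_smp {K r : ℕ} (hr : r.Prime) (hK : r ≤ K) (n : ℕ) :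
    r ^ n.factorization r ∣ smp K n :=
  Finset.dvd_prod_of_mem _ (Nat.mem_primesLE.2 ⟨hK, hr⟩)

theorem smp_dvd (K n : ℕ) : smp K n ∣ n := by
  have h1 : ∀ K, smp K n ∣ n := by
    intro K
    induction K with
    | zero =>
      have h1 : Nat.primesLE 0 = ∅ := by
        ext r
        rw [Nat.mem_primesLE]
        constructor
        · rintro ⟨h1, h2⟩
          exact absurd h2.pos (by omega)
        · intro h
          simp at h
      unfold smp
      rw [h1, Finset.prod_empty]
      exact one_dvd _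
    | succ K ih =>
      rw [smp_succ]
      split_ifs with h
      · exact Nat.Coprime.mul_dvd_of_dvd_of_dvd (coprime_smp h (by omega) _) ih
          (Nat.ordProj_dvd n (K + 1))
      · exact ih
  exact h1 K

/-- the cofactor is prime to the primes `≤ K` -/
theorem not_dvd_of_mul_smp {K n m r : ℕ} (hn : n ≠ 0) (h : n = smp K n * m) (hr : r.Prime)
    (hK : r ≤ K) : ¬ r ∣ m := by
  intro hd
  have h1 : r ^ (n.factorization r + 1) ∣ n := by
    conv_rhs => rw [h]
    rw [pow_succ]
    exact Nat.mul_dvd_mul (pow_dvd_smp hr hK n) hd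
  exact Nat.pow_succ_factorization_not_dvd hn hr h1

theorem coprime_of_mul_smp {K n m : ℕ} (hn : n ≠ 0) (h : n = smp K n * m) :
    (smp K n).Coprime m := by
  have h1 : ∀ r ∈ Nat.primesLE K, (r ^ n.factorization r).Coprime m := by
    intro r hr
    rw [Nat.mem_primesLE] at hr
    exact Nat.Coprime.pow_left _ ((hr.2.coprime_iff_not_dvd).2 (not_dvd_of_mul_smp hn h hr.2 hr.1))
  exact Nat.Coprime.prod_left h1

/-- the order of `fx K z p x` -/
theorem fx_order (p : ℕ) [hpf : Fact p.Prime] {K z x : ℕ} {ζ u : (ZMod p)ˣ}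
    (hz : (z : ZMod p) = ζ) (hζ : orderOf ζ = smp K (p - 1)) (hx : (x : ZMod p) = u) :
    smp K (p - 1) ∣ orderOf ((fx K z p x : ℕ) : ZMod p) ∧
      orderOf (x : ZMod p) ∣ orderOf ((fx K z p x : ℕ) : ZMod p) ∧
      orderOf ((fx K z p x : ℕ) : ZMod p) ∣ p - 1 := by
  have hp : p.Prime := hpf.out
  have hn : p - 1 ≠ 0 := by have := hp.two_le; omega
  have hs : mN p K = smp K (p - 1) := by rw [mN_eq hp.two_le, smoothPart_eq K hn]
  have h1 : ((fx K z p x : ℕ) : ZMod p) = ((ζ * u ^ smp K (p - 1) : (ZMod p)ˣ) : ZMod p) := by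
    unfold fx
    rw [mmod_cast _ _ hp.ne_zero, pmod_cast _ _ hp.ne_zero, hs, hz, hx, Units.val_mul,
      Units.val_pow_eq_pow_val]
  obtain ⟨m, hm⟩ := smp_dvd K _
  have hcop := coprime_of_mul_smp hn hm
  have hu1 : u ^ (p - 1) = 1 := by
    have h2 := pow_card_eq_one' (x := u)
    rwa [Nat.card_eq_fintype_card, ZMod.card_units] at h2
  have h2 : orderOf (u ^ smp K (p - 1)) ∣ m := by
    apply orderOf_dvd_of_pow_eq_one
    rw [← pow_mul, ← hm]
    exact hu1
  have h3 : orderOf (ζ * u ^ smp K (p - 1)) = smp K (p - 1) * orderOf (u ^ smp K (p - 1)) := by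
    rw [← hζ]
    apply (Commute.all ζ _).orderOf_mul_eq_mul_orderOf_of_coprime
    rw [hζ]
    exact Nat.Coprime.coprime_dvd_right h2 hcop
  rw [h1, orderOf_units, h3, hx, orderOf_units]
  refine ⟨dvd_mul_right _ _, ?_, ?_⟩
  · apply orderOf_dvd_of_pow_eq_one
    rw [pow_mul]
    exact pow_orderOf_eq_one _
  · conv_rhs => rw [hm]
    exact Nat.mul_dvd_mul_left _ h2

theorem Most.map {M : ℕ} {l : List ℕ} {P Q : ℕ → Prop} (g : ℕ → ℕ) (h : Most M l P)
    (hPQ : ∀ x ∈ l, P x → Q (g x)) : Most M (l.map g) Q := by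
  classical
  have h1 := h.mono (Q := fun x => Q (g x)) hPQ
  refine ⟨by simpa using h1.1, ?_⟩
  rw [List.countP_map, List.length_map]
  have h2 := h1.2
  refine le_trans (Nat.mul_le_mul_right M (le_of_eq ?_)) h2
  apply List.countP_congr
  intro x _
  simp

/-- the list -/
def listH (K A c p0 : ℕ) (t z : ℕ → ℕ) (p : ℕ) : List ℕ :=
  if p < p0 then [t p] else (listG A c p0 t p).map (fx K (z p) p)

theorem BT.fx {α : Type} [Enc α] {z p x : α → ℕ} (K : ℕ) (hz : BT z) (hp : BT p) (hx : BT x) :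
    BT (fun a => fx K (z a) (p a) (x a)) :=
  BT.mmod hz (BT.pmod hx (BT.mN hp (PT.const K)) hp) hp

theorem listH_poly (K A c p0 : ℕ) (t : ℕ → ℕ) {z : ℕ → ℕ} (hz : BT (fun x : Bin => z x.val)) :
    Nonempty (Turing.TM2ComputableInPolyTime Nat.bits encList (listH K A c p0 t z)) := by
  have hp : BT (fun l : List Bool => bval l) := BT.bval PT.id
  have hs : PT (fun l : List Bool => Nat.size (bval l)) := hp.sizeU
  have hzp : BT (fun l : List Bool => z (bval l)) :=
    BT.comp (F := fun x : Bin => z x.val) (h := fun l : List Bool => ⟨bval l⟩) hz hp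
  have hr : BT (fun l : List Bool => rootN (bval l) (fun i => rn (bval l) i)
      (Nat.size (bval l) ^ A) (Nat.size (bval l) ^ (c + 1))) :=
    BT.rootN (g := fun x : List Bool × ℕ => rn (bval x.1) x.2) hp (BT.gens hp) (PT.powC hs A)
      (PT.powC hs (c + 1))
  have hp1 : BT (fun x : List Bool × ℕ => bval x.1) := BT.comp (F := fun l => bval l) hp PT.fst
  have hz1 : BT (fun x : List Bool × ℕ => z (bval x.1)) :=
    BT.comp (F := fun l => z (bval l)) hzp PT.fst
  have hsmall := PT.enc1 (BT.table t p0 hp (BT.const 0))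
  have hlist := PT.encMap (BT.fx K hz1 hp1 (BT.listF_cand A (c + 1)))
    (PT.powC hs (A + 1 + (c + 1)))
  have hbig := PT.append (PT.enc1 (BT.fx K hzp hp hr)) hlist
  have h : PT (fun l => encList (listH K A c p0 t z (bval l))) := by
    refine (PT.ite (BT.lt hp (BT.const p0)) hsmall hbig).congr fun l => ?_
    by_cases h : bval l < p0
    · rw [listH, if_pos h, if_pos h, if_pos h]
      simp [encList]
    · rw [listH, if_neg h, if_neg h, listG, if_neg h, List.map_cons, encList, List.flatMap_cons,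
        candList, List.map_map]
      rfl
  exact tm_of h fun p => by rw [bval_bits]

/-- `p - 1` has at most one prime factor (of any multiplicity) above `R`. -/
def OneBig (R p : ℕ) : Prop := ∀ q q' : ℕ, q.Prime → q'.Prime → q ∣ p - 1 → q' ∣ p - 1 →
  R < q → R < q' → q = q'

/-- With `L` the number of digits of `p`: all but at most the part `1 / L ^ c` of the entries of `l`
satisfy `P`, and if `p - 1` has at most one prime factor above `L ^ c` then also the first entry
does. -/
def Good (c p : ℕ) (l : List ℕ) (P : ℕ → Prop) : Prop :=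
  Most (Nat.size p ^ c) l P ∧ (OneBig (Nat.size p ^ c) p → ∀ x ∈ l.head?, P x)

/-- the list theorem -/
theorem listK {K : ℕ} (hK : ResK K) (ε : ℝ) (hε : 0 < ε) (c : ℕ) : ∃ f : ℕ → List ℕ,
    Nonempty (Turing.TM2ComputableInPolyTime Nat.bits encList f) ∧
    (∀ p : ℕ, p.Prime → Good c p (f p)
      (fun x => (∏ r ∈ Nat.primesLE K, r ^ (p - 1).factorization r) ∣ orderOf (x : ZMod p) ∧
        (p : ℝ) - 1 < (p : ℝ) ^ ε * orderOf (x : ZMod p))) ∧
    (∀ p : ℕ, p.Prime → (∀ q : ℕ, q.Prime → q ∣ p - 1 → K < q → (p : ℝ) ^ ε ≤ q) →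
      Good c p (f p) (fun x => orderOf (x : ZMod p) = p - 1)) ∧
    ∃ L0 : ℕ, ∀ L : ℕ, L0 ≤ L → ∃ E : Finset ℕ, (E.card : ℝ) ≤ (2 : ℝ) ^ (ε * L) ∧
      ∀ p : ℕ, p.Prime → Nat.size p = L → p ∉ E →
        Good c p (f p) (fun x => orderOf (x : ZMod p) = p - 1) := by
  obtain ⟨z, hz, hz'⟩ := hK
  obtain ⟨A1, p0, hA1, h1⟩ := top_of_rough ε hε
  obtain ⟨A2, L0, h2⟩ := few_bad' ε hε
  obtain ⟨t, ht⟩ := PRT.exists_table
  obtain ⟨A, hA⟩ : ∃ A, A = max A1 A2 := ⟨_, rfl⟩
  have hge : ∀ p : ℕ, p.Prime → Nat.size p ^ A1 ≤ Nat.size p ^ A ∧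
      Nat.size p ^ A2 ≤ Nat.size p ^ A := by
    intro p hp
    have hs : 0 < Nat.size p := Nat.size_pos.2 hp.pos
    constructor
    · exact Nat.pow_le_pow_right hs (by rw [hA]; exact le_max_left _ _)
    · exact Nat.pow_le_pow_right hs (by rw [hA]; exact le_max_right _ _)
  -- a small prime
  have hsmall : ∀ (p : ℕ) (P : ℕ → Prop), p < p0 → P (t p) →
      Good c p (listH K A c p0 t z p) P := by
    intro p P hlt hP
    unfold listH
    rw [if_pos hlt]
    constructor
    · refine ⟨by simp, ?_⟩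
      rw [List.countP_singleton]
      simp [hP]
    · intro _ x hx
      rw [List.head?_cons, Option.mem_some_iff] at hx
      rw [← hx]
      exact hP
  -- a large prime
  have hlarge : ∀ (p : ℕ) (_ : Fact p.Prime) (P : ℕ → Prop), p0 ≤ p →
      (∀ (x : ℕ) (u : (ZMod p)ˣ), (x : ZMod p) = u →
        Subgroup.zpowers u = PrimRoot.genSub (aU p) (Nat.size p ^ A) → P (fx K (z p) p x)) →
      Good c p (listH K A c p0 t z p) P := by
    intro p hpf P hp hP
    unfold listH
    rw [if_neg (by omega)]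
    constructor
    · refine Most.map (fx K (z p) p) (listG_most p hp) ?_
      rintro x _ ⟨u, hxu, hu⟩
      exact hP x u hxu hu
    · intro hR x hx
      rw [List.head?_map] at hx
      obtain ⟨y, hy, rfl⟩ := Option.mem_map.1 hx
      obtain ⟨u, hxu, hu⟩ := listG_head p hp hR y hy
      exact hP y u hxu hu
  -- the whole group
  have hfull : ∀ p : ℕ, p.Prime → (∀ _ : Fact p.Prime, p0 ≤ p →
      PrimRoot.genSub (aU p) (Nat.size p ^ A) = ⊤) →
      Good c p (listH K A c p0 t z p) (fun x => orderOf (x : ZMod p) = p - 1) := by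
    intro p hp hg
    rcases lt_or_ge p p0 with hlt | hge'
    · exact hsmall p _ hlt (ht p hp)
    · have hpf : Fact p.Prime := ⟨hp⟩
      refine hlarge p hpf _ hge' fun x u hxu hu => ?_
      have h3 := order_of_gen p hxu hu
      rw [hg hpf hge', Subgroup.index_top, mul_one] at h3
      obtain ⟨-, ζ, hζ1, hζ2⟩ := hz' p
      obtain ⟨-, a2, a3⟩ := fx_order p hζ1 hζ2 hxu
      rw [h3] at a2
      exact Nat.dvd_antisymm a3 a2
  -- the general statement
  have hgen : ∀ p : ℕ, p.Prime → Good c p (listH K A c p0 t z p)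
      (fun x => (∏ r ∈ Nat.primesLE K, r ^ (p - 1).factorization r) ∣ orderOf (x : ZMod p) ∧
        (p : ℝ) - 1 < (p : ℝ) ^ ε * orderOf (x : ZMod p) ∧ orderOf (x : ZMod p) ∣ p - 1) := by
    intro p hp
    have hpf : Fact p.Prime := ⟨hp⟩
    have hn : p - 1 ≠ 0 := by have := hp.two_le; omega
    have hp1 : (1 : ℝ) < (p : ℝ) ^ ε :=
      Real.one_lt_rpow (by exact_mod_cast hp.one_lt) hε
    rcases lt_or_ge p p0 with hlt | hge'
    · refine hsmall p _ hlt ⟨?_, ?_, ?_⟩
      · rw [ht p hp]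
        exact smp_dvd K _
      · refine order_lt (i := 1) ?_ (by simpa using hp1)
        simpa using ht p hp
      · rw [ht p hp]
    · refine hlarge p hpf _ hge' fun x u hxu hu => ?_
      obtain ⟨-, ζ, hζ1, hζ2⟩ := hz' p
      obtain ⟨a1, a2, a3⟩ := fx_order p hζ1 hζ2 hxu
      refine ⟨a1, ?_, a3⟩
      have h4 := order_lt (order_of_gen p hxu hu) (h1 p hge' _ (hge p hp).1).1
      refine h4.trans_le (mul_le_mul_of_nonneg_left ?_ (by positivity))
      exact_mod_cast Nat.le_of_dvd (Nat.pos_of_dvd_of_pos a3 (Nat.pos_of_ne_zero hn)) a2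
  refine ⟨listH K A c p0 t z, listH_poly K A c p0 t hz, ?_, ?_, L0, ?_⟩
  · intro p hp
    obtain ⟨b1, b2⟩ := hgen p hp
    exact ⟨b1.mono fun x _ hx => ⟨hx.1, hx.2.1⟩, fun hR x hx =>
      ⟨(b2 hR x hx).1, (b2 hR x hx).2.1⟩⟩
  · intro p hp hr
    have hn : p - 1 ≠ 0 := by have := hp.two_le; omega
    have key : ∀ x : ℕ, ((∏ r ∈ Nat.primesLE K, r ^ (p - 1).factorization r) ∣
        orderOf (x : ZMod p) ∧ (p : ℝ) - 1 < (p : ℝ) ^ ε * orderOf (x : ZMod p) ∧
        orderOf (x : ZMod p) ∣ p - 1) → orderOf (x : ZMod p) = p - 1 := by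
      rintro x ⟨c1, c2, c3⟩
      obtain ⟨i, hi⟩ := c3
      obtain ⟨d, hd⟩ := c1
      have hcast : (p : ℝ) - 1 = (orderOf (x : ZMod p) : ℝ) * i := by
        have : ((p - 1 : ℕ) : ℝ) = (p : ℝ) - 1 := by
          rw [Nat.cast_sub hp.one_lt.le]; simp
        rw [← this, hi]
        push_cast
        ring
      have ho : 0 < orderOf (x : ZMod p) := by
        rcases Nat.eq_zero_or_pos (orderOf (x : ZMod p)) with h0 | h0
        · rw [h0, zero_mul] at hi
          exact absurd hi hn
        · exact h0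
      have ho' : (0 : ℝ) < orderOf (x : ZMod p) := by exact_mod_cast ho
      have hi1 : (i : ℝ) < (p : ℝ) ^ ε := by
        rw [hcast, mul_comm] at c2
        exact lt_of_mul_lt_mul_right c2 ho'.le
      by_cases h5 : i = 1
      · rw [h5, mul_one] at hi
        exact hi.symm
      · exfalso
        obtain ⟨q, hq, hqi⟩ := Nat.exists_prime_and_dvd h5
        have hqp : q ∣ p - 1 := by
          rw [hi]
          exact Dvd.dvd.mul_left hqi _
        have hKq : K < q := by
          by_contra hcon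
          push Not at hcon
          refine not_dvd_of_mul_smp (K := K) (m := d * i) hn ?_ hq hcon (Dvd.dvd.mul_left hqi _)
          have h6 : p - 1 = (∏ r ∈ Nat.primesLE K, r ^ (p - 1).factorization r) * d * i := by
            rw [← hd]
            exact hi
          rw [← mul_assoc]
          exact h6
        have h7 := hr q hq hqp hKq
        have hi0 : 0 < i := by
          rcases Nat.eq_zero_or_pos i with h0 | h0
          · rw [h0, mul_zero] at hi
            exact absurd hi hn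
          · exact h0
        have h8 : (q : ℝ) ≤ i := by exact_mod_cast Nat.le_of_dvd hi0 hqi
        linarith
    obtain ⟨b1, b2⟩ := hgen p hp
    exact ⟨b1.mono fun x _ hx => key x hx, fun hR x hx => key x (b2 hR x hx)⟩
  · intro L hL
    obtain ⟨E, hE, h⟩ := h2 L hL
    refine ⟨E, hE, fun p hp hpL hpE => ?_⟩
    exact hfull p hp fun _ _ => h p hpL hpE _ (hge p hp).2

end Pool.Agent.RNM
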