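import Pool.Agent.RNM.Comp
import Pool.Agent.QNM.Main

/-! # The residue of order the `K`-smooth part of `p - 1`, in polynomial time -/

set_option autoImplicit false

namespace Pool.Agent.RNM

open Pool.Agent.PRT Pool.Agent.PRL Pool.Agent.QNM Pool.NPC Pool.NPC.Enc Pool.NPC.Tr Polynomial

/-- a residue of order the `r`-part of `p - 1` is computed in polynomial time -/
def Res (r : ℕ) : Prop := ∃ z : ℕ → ℕ, BT (fun x : Bin => z x.val) ∧
  ∀ (p : ℕ) [Fact p.Prime], z p < p ∧ ∃ ζ : (ZMod p)ˣ, ((z p : ℕ) : ZMod p) = ζ ∧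
    orderOf ζ = r ^ (p - 1).factorization r

/-- a table -/
theorem exists_table (r : ℕ) : ∃ t : ℕ → ℕ, ∀ (p : ℕ) [Fact p.Prime], t p < p ∧
    ∃ ζ : (ZMod p)ˣ, ((t p : ℕ) : ZMod p) = ζ ∧ orderOf ζ = r ^ (p - 1).factorization r := by
  classical
  have h : ∀ p : ℕ, ∃ x : ℕ, ∀ hp : p.Prime, have := Fact.mk hp
      x < p ∧ ∃ ζ : (ZMod p)ˣ, ((x : ℕ) : ZMod p) = ζ ∧
        orderOf ζ = r ^ (p - 1).factorization r := by
    intro p
    by_cases hp : p.Prime
    · have := Fact.mk hp
      have h0 : p - 1 ≠ 0 := by have := hp.two_le; omega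
      obtain ⟨g, hg⟩ := IsCyclic.exists_ofOrder_eq_natCard (α := (ZMod p)ˣ)
      have hc : Nat.card (ZMod p)ˣ = p - 1 := by
        rw [Nat.card_eq_fintype_card, ZMod.card_units]
      have h1 : p - 1 = PrimRoot.cofac (p - 1) r * r ^ (p - 1).factorization r := by
        unfold PrimRoot.cofac
        rw [mul_comm]
        exact (Nat.ordProj_mul_ordCompl_eq_self (p - 1) r).symm
      have hc0 : 0 < PrimRoot.cofac (p - 1) r := by
        rcases Nat.eq_zero_or_pos (PrimRoot.cofac (p - 1) r) with h2 | h2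
        · rw [h2, zero_mul] at h1
          exact absurd h1 h0
        · exact h2
      refine ⟨((g ^ PrimRoot.cofac (p - 1) r : (ZMod p)ˣ) : ZMod p).val, fun _ =>
        ⟨ZMod.val_lt _, g ^ PrimRoot.cofac (p - 1) r, ?_, ?_⟩⟩
      · rw [ZMod.natCast_zmod_val]
      · rw [orderOf_pow, hg, hc]
        have h2 : Nat.gcd (p - 1) (PrimRoot.cofac (p - 1) r) = PrimRoot.cofac (p - 1) r := by
          apply Nat.gcd_eq_right
          exact ⟨r ^ (p - 1).factorization r, h1⟩
        rw [h2]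
        exact Nat.div_eq_of_eq_mul_right hc0 h1
    · exact ⟨0, fun h => absurd h hp⟩
  choose t ht using h
  exact ⟨t, fun p hp => ht p hp.out⟩

theorem zr_lt {r p N : ℕ} (hp : 0 < p) : zr r p N < p := by
  unfold zr iel
  exact pmod_lt hp

/-- odd primes -/
theorem res_of_smallR {r : ℕ} (hr : r.Prime) (hr2 : r ≠ 2) (hS : SmallR r) : Res r := by
  obtain ⟨C, p0, hS⟩ := hS
  obtain ⟨t, ht⟩ := exists_table r
  refine ⟨zrt r (C + 1) (max p0 (2 ^ r)) t, BT.zrt r (C + 1) _ t BT.val, fun p hpf => ?_⟩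
  have hp : p.Prime := hpf.out
  have hrf : Fact r.Prime := ⟨hr⟩
  unfold zrt
  split_ifs with h
  · exact ht p
  · have hp0 : p0 ≤ p := by have := le_max_left p0 (2 ^ r); omega
    have hpr : 2 ^ r ≤ p := by have := le_max_right p0 (2 ^ r); omega
    have hsz : r < Nat.size p := Nat.lt_size.2 hpr
    have h1 : Nat.size p ^ C ≤ Nat.size p ^ (C + 1) :=
      Nat.pow_le_pow_right (by omega) (Nat.le_succ C)
    have h2 : r ≤ Nat.size p ^ (C + 1) := hsz.le.trans (Nat.le_self_pow (by omega) _)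
    have h3 : ∀ x : ℤ, |x| ≤ (Nat.size p ^ C : ℕ) → |x| ≤ (Nat.size p ^ (C + 1) : ℕ) :=
      fun x hx => hx.trans (by exact_mod_cast h1)
    refine ⟨zr_lt hp.pos, zr_spec p hr fun hrp => ?_⟩
    rcases hS p hp0 hrp with ⟨x, hx, hns⟩ | ⟨f, S, D, al, hf, hD, hD0, hinj, h0, hroot, hal, hne⟩
    · exact exists_gen_small p hr hr2 (h3 x hx) hns
    · exact exists_gen_cand p hrp h2 (fun k hk => ⟨h3 _ (hf k hk).1, h3 _ (hf k hk).2⟩) (h3 D hD)
        hD0 hinj h0 hroot hal hne

/-- the prime 2 -/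
theorem res_two (hS : Small) : Res 2 := by
  obtain ⟨C, p0, hS⟩ := hS
  obtain ⟨t, ht⟩ := exists_zt
  obtain ⟨p1, hp1⟩ := exists_size_pow_lt C
  refine ⟨zt C (max 3 (max p0 p1)) t, QNM.BT.zt C _ t BT.val, fun p hpf => ?_⟩
  have hp : p.Prime := hpf.out
  unfold zt
  split_ifs with h
  · exact ht p
  · have h3 : 3 ≤ p := by have := le_max_left 3 (max p0 p1); omega
    have hp0 : p0 ≤ p := by
      have := le_max_left p0 p1
      have := le_max_right 3 (max p0 p1)
      omega
    have hpp1 : p1 ≤ p := by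
      have := le_max_right p0 p1
      have := le_max_right 3 (max p0 p1)
      omega
    set N := Nat.size p ^ C with hN
    have hNp : N < p := hp1 p hpp1
    refine ⟨?_, ?_⟩
    · unfold zq iel
      exact pmod_lt hp.pos
    · obtain ⟨d, x, y, hd, hx, hy, hns⟩ := hS p hp0 (AL p N) (fun d => ((rl p N d : ℕ) : ZMod p))
        (fun q q' hq hq' _ hqN hA => rl_sq p hNp q q' hq hq' hqN hA)
      exact zq_of_elt p (by omega) hd hx hy hns

/-- the `K`-smooth part of `n` -/
def smp (K n : ℕ) : ℕ := ∏ r ∈ Nat.primesLE K, r ^ n.factorization r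

theorem smp_succ (K n : ℕ) : smp (K + 1) n =
    if (K + 1).Prime then smp K n * (K + 1) ^ n.factorization (K + 1) else smp K n := by
  have h1 : Nat.primesLE (K + 1) =
      if (K + 1).Prime then insert (K + 1) (Nat.primesLE K) else Nat.primesLE K := by
    ext r
    split_ifs with h
    · rw [Finset.mem_insert, Nat.mem_primesLE, Nat.mem_primesLE]
      constructor
      · rintro ⟨h1, h2⟩
        rcases Nat.lt_or_ge r (K + 1) with h3 | h3
        · exact Or.inr ⟨by omega, h2⟩
        · exact Or.inl (by omega)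
      · rintro (rfl | ⟨h1, h2⟩)
        · exact ⟨le_rfl, h⟩
        · exact ⟨by omega, h2⟩
    · rw [Nat.mem_primesLE, Nat.mem_primesLE]
      constructor
      · rintro ⟨h1, h2⟩
        refine ⟨?_, h2⟩
        rcases Nat.lt_or_ge r (K + 1) with h3 | h3
        · omega
        · exfalso
          apply h
          have : r = K + 1 := by omega
          rwa [← this]
      · rintro ⟨h1, h2⟩
        exact ⟨by omega, h2⟩
  unfold smp
  rw [h1]
  split_ifs with h
  · rw [Finset.prod_insert, mul_comm]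
    rw [Nat.mem_primesLE]
    omega
  · rfl

theorem coprime_smp {K n q : ℕ} (hq : q.Prime) (hK : K < q) (e : ℕ) :
    (smp K n).Coprime (q ^ e) := by
  unfold smp
  apply Nat.Coprime.prod_left
  intro r hr
  rw [Nat.mem_primesLE] at hr
  exact Nat.Coprime.pow _ _ ((Nat.coprime_primes hr.2 hq).2 (by omega))

/-- a residue of order the `K`-smooth part of `p - 1` is computed in polynomial time -/
def ResK (K : ℕ) : Prop := ∃ z : ℕ → ℕ, BT (fun x : Bin => z x.val) ∧
  ∀ (p : ℕ) [Fact p.Prime], z p < p ∧ ∃ ζ : (ZMod p)ˣ, ((z p : ℕ) : ZMod p) = ζ ∧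
    orderOf ζ = smp K (p - 1)

theorem resK (H : ∀ r : ℕ, r.Prime → Res r) (K : ℕ) : ResK K := by
  induction K with
  | zero =>
    refine ⟨fun _ => 1, BT.const 1, fun p hpf => ⟨hpf.out.one_lt, 1, by simp, ?_⟩⟩
    have h1 : Nat.primesLE 0 = ∅ := by
      ext r
      rw [Nat.mem_primesLE]
      constructor
      · rintro ⟨h1, h2⟩
        exact absurd h2.pos (by omega)
      · intro h
        simp at h
    unfold smp
    rw [h1, Finset.prod_empty, orderOf_one]
  | succ K ih =>
    by_cases h : (K + 1).Prime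
    · obtain ⟨z, hz, hz'⟩ := ih
      obtain ⟨y, hy, hy'⟩ := H (K + 1) h
      refine ⟨fun p => mmod (z p) (y p) p, BT.mmod hz hy BT.val, fun p hpf => ?_⟩
      have hp : p.Prime := hpf.out
      obtain ⟨-, ζ, h1, h2⟩ := hz' p
      obtain ⟨-, η, h3, h4⟩ := hy' p
      refine ⟨mmod_lt hp.pos, ζ * η, ?_, ?_⟩
      · rw [mmod_cast _ _ hp.ne_zero, h1, h3, Units.val_mul]
      · rw [smp_succ, if_pos h, ← h2, ← h4]
        apply (Commute.all ζ η).orderOf_mul_eq_mul_orderOf_of_coprime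
        rw [h2, h4]
        exact coprime_smp h (by omega) _
    · obtain ⟨z, hz, hz'⟩ := ih
      refine ⟨z, hz, fun p hpf => ?_⟩
      rw [smp_succ, if_neg h]
      exact hz' p

/-- an element whose order is divisible by the full power of `r` in `p - 1` is no `r`-th power -/
theorem not_pow_of_order (p : ℕ) [hpf : Fact p.Prime] {r : ℕ} {x : ZMod p} (hr : r.Prime)
    (hrp : r ∣ p - 1) (hx0 : x ≠ 0) (hx : r ^ (p - 1).factorization r ∣ orderOf x) (y : ZMod p) :
    y ^ r ≠ x := by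
  have hp : p.Prime := hpf.out
  have hn : p - 1 ≠ 0 := by have := hp.two_le; omega
  intro h
  obtain ⟨m, hm⟩ := hrp
  have hy : y ≠ 0 := by
    rintro rfl
    rw [zero_pow hr.ne_zero] at h
    exact hx0 h.symm
  have h1 : x ^ m = 1 := by
    rw [← h, ← pow_mul, ← hm]
    exact ZMod.pow_card_sub_one_eq_one hy
  have h2 := orderOf_dvd_of_pow_eq_one h1
  have h3 : r ^ ((p - 1).factorization r + 1) ∣ p - 1 := by
    conv_rhs => rw [hm]
    rw [pow_succ, mul_comm]
    exact Nat.mul_dvd_mul_left r (hx.trans h2)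
  exact Nat.pow_succ_factorization_not_dvd hn hr h3

/-- the final form -/
theorem smooth (H : ∀ r : ℕ, r.Prime → Res r) (K : ℕ) : ∃ f : ℕ → ℕ,
    Nonempty (Turing.TM2ComputableInPolyTime Nat.bits Nat.bits f) ∧
    ∀ p : ℕ, p.Prime → f p < p ∧
      orderOf ((f p : ℕ) : ZMod p) = ∏ r ∈ Nat.primesLE K, r ^ (p - 1).factorization r ∧
      ∀ r : ℕ, r.Prime → r ≤ K → r ∣ p - 1 → ∀ y : ZMod p, y ^ r ≠ ((f p : ℕ) : ZMod p) := by
  obtain ⟨z, hz, hz'⟩ := resK H K
  refine ⟨z, ?_, fun p hp => ?_⟩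
  · have hp : BT (fun l : List Bool => bval l) := BT.bval PT.id
    have hzp : BT (fun l : List Bool => z (bval l)) :=
      BT.comp (F := fun x : Bin => z x.val) (h := fun l : List Bool => ⟨bval l⟩) hz hp
    exact tm_of hzp.bits fun p => by rw [bval_bits]
  · have : Fact p.Prime := ⟨hp⟩
    obtain ⟨h1, ζ, h2, h3⟩ := hz' p
    refine ⟨h1, ?_, fun r hr hK hrp y => ?_⟩
    · rw [h2, orderOf_units, h3]
      rfl
    · rw [h2]
      refine not_pow_of_order p hr hrp ζ.ne_zero ?_ y
      rw [orderOf_units, h3]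
      exact Finset.dvd_prod_of_mem (fun r => r ^ (p - 1).factorization r)
        (Nat.mem_primesLE.2 ⟨hK, hr⟩)

/-- all primes, from the number theory -/
theorem res_all (h2 : Small) (hS : ∀ r : ℕ, r.Prime → r ≠ 2 → SmallR r) (r : ℕ) (hr : r.Prime) :
    Res r := by
  by_cases hr2 : r = 2
  · subst hr2
    exact res_two h2
  · exact res_of_smallR hr hr2 (hS r hr hr2)

end Pool.Agent.RNM
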