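import Pool.Agent.RNM.Cand

/-! # The trick: iterated quotients of a function with values in the `r`-th roots of unity -/

set_option autoImplicit false

namespace Pool.Agent.RNM

open Finset

theorem trick (r p : ℕ) [hrf : Fact r.Prime] [hpf : Fact p.Prime] : Trick r p := by
  classical
  intro h h0 hs hne
  have hr : r.Prime := hrf.out
  have hr0 : 0 < r := hr.pos
  have hpow : ∀ k i, h k i ^ r = 1 := by
    intro k
    induction k with
    | zero => exact h0
    | succ k ih =>
      intro i
      rw [hs, mul_pow, ih, one_mul, ← pow_mul, mul_comm, pow_mul, ih, one_pow]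
  have hu : ∀ k i, h k i ≠ 0 := by
    intro k i h1
    have h2 := hpow k i
    rw [h1, zero_pow hr0.ne'] at h2
    exact zero_ne_one h2
  obtain ⟨f, hfdef⟩ : ∃ f : ZMod r → Additive (ZMod p)ˣ,
      f = fun i => Additive.ofMul (Units.mk0 (h 0 i) (hu 0 i)) := ⟨_, rfl⟩
  have hf : ∀ k i, ((Additive.toMul ((fwdDiff (1 : ZMod r))^[k] f i) : (ZMod p)ˣ) : ZMod p) =
      h k i := by
    intro k
    induction k with
    | zero => intro i; rw [hfdef]; rfl
    | succ k ih =>
      intro i
      rw [Function.iterate_succ_apply', fwdDiff, toMul_sub, Units.val_div_eq_div_val, ih, ih, hs,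
        div_eq_mul_inv]
      congr 1
      apply inv_eq_of_mul_eq_one_right
      have h1 : r - 1 + 1 = r := by omega
      rw [← pow_succ', h1, hpow]
  have hrf0 : ∀ i, r • f i = 0 := by
    intro i
    rw [hfdef]
    apply Additive.toMul.injective
    rw [toMul_nsmul, toMul_zero]
    apply Units.ext
    rw [Units.val_pow_eq_pow_val, toMul_ofMul, Units.val_mk0, h0, Units.val_one]
  have hlast : ∀ i, (fwdDiff (1 : ZMod r))^[r] f i = 0 := by
    intro i
    rw [fwdDiff_iter_eq_sum_shift]
    have hmid : ∀ k ∈ range (r + 1), k ≠ 0 → k ≠ r →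
        (((-1 : ℤ) ^ (r - k) * (r.choose k : ℤ)) • f (i + k • (1 : ZMod r))) = 0 := by
      intro k hk hk0 hkr
      have hk' := Finset.mem_range.1 hk
      obtain ⟨c, hc⟩ := hr.dvd_choose_self hk0 (by omega)
      have h1 : ((-1 : ℤ) ^ (r - k) * (r.choose k : ℤ)) = ((-1 : ℤ) ^ (r - k) * (c : ℤ)) * (r : ℤ) := by
        rw [hc]
        push_cast
        ring
      rw [h1, mul_smul, natCast_zsmul, hrf0, smul_zero]
    rw [Finset.sum_range_succ, Finset.sum_eq_single 0]
    · rw [Nat.sub_zero, Nat.choose_zero_right, Nat.sub_self, pow_zero, Nat.choose_self, zero_smul,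
        add_zero]
      have h2 : i + r • (1 : ZMod r) = i := by
        rw [nsmul_eq_mul, CharP.cast_eq_zero, zero_mul, add_zero]
      rw [h2]
      rcases hr.eq_two_or_odd' with h3 | h3
      · have h4 := hrf0 i
        rw [h3, two_smul] at h4
        rw [h3]
        simpa using h4
      · rw [h3.neg_one_pow]
        simp
    · intro k hk hk0
      have hk' := Finset.mem_range.1 hk
      exact hmid k (Finset.mem_range.2 (by omega)) hk0 (by omega)
    · intro h3
      exact absurd (Finset.mem_range.2 hr0) h3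
  have hlast' : ∀ i, h r i = 1 := by
    intro i
    rw [← hf, hlast, toMul_zero, Units.val_one]
  -- the first constant function
  have hex : ∃ k, ∀ i j, h k i = h k j := ⟨r, fun i j => by rw [hlast', hlast']⟩
  have hk1 := Nat.find_spec hex
  have hk0 : Nat.find hex ≠ 0 := by
    intro h1
    rw [h1] at hk1
    obtain ⟨i, j, hij⟩ := hne
    exact hij (hk1 i j)
  obtain ⟨k, hk⟩ := Nat.exists_eq_succ_of_ne_zero hk0
  have hkr : k < r := by
    have h1 : Nat.find hex ≤ r := Nat.find_min' hex (fun i j => by rw [hlast', hlast'])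
    omega
  have hnk : ¬ ∀ i j, h k i = h k j := Nat.find_min hex (by omega)
  rw [hk] at hk1
  obtain ⟨z, hz⟩ : ∃ z, z = h (k + 1) 0 := ⟨_, rfl⟩
  have hzi : ∀ i, h (k + 1) i = z := fun i => by rw [hz]; exact hk1 i 0
  have hstep : ∀ i, h k (i + 1) = h k i * z := by
    intro i
    rw [← hzi i, hs]
    have h1 : h k i * (h k (i + 1) * h k i ^ (r - 1)) = h k (i + 1) * h k i ^ (r - 1 + 1) := by
      rw [pow_succ]
      ring
    have h2 : r - 1 + 1 = r := by omega
    rw [h1, h2, hpow, mul_one]
  have hform : ∀ n : ℕ, h k (n : ZMod r) = h k 0 * z ^ n := by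
    intro n
    induction n with
    | zero => simp
    | succ n ih =>
      rw [Nat.cast_succ, hstep, ih, pow_succ, mul_assoc]
  have hform' : ∀ i : ZMod r, h k i = h k 0 * z ^ i.val := by
    intro i
    conv_lhs => rw [← ZMod.natCast_zmod_val i]
    exact hform i.val
  refine ⟨k, hkr, z, h k 0, ?_, by rw [hz]; exact hpow _ _, hpow _ _, fun i =>
    ⟨hzi i, hform' i⟩⟩
  intro hz1
  apply hnk
  intro i j
  rw [hform' i, hform' j, hz1, one_pow, one_pow]

end Pool.Agent.RNM
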